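import Pool.Agent.H503.MU.IntA

/-!
# The Atkin-Lehner relation and the operator `U_p` for the values at the cusps
-/

set_option autoImplicit false
set_option linter.unusedSectionVars false

open Complex UpperHalfPlane MatrixGroups CongruenceSubgroup Filter Topology ModularForm

namespace Pool.Agent.H503.MB

open Pool.Agent.H503.TA Pool.Agent.H503.MU

/-- decomposition of integral matrices of positive determinant -/
lemma decomp {A B C D n : ℤ} (hn : 0 < n) (h : A * D - B * C = n) :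
    ∃ (δ : SL(2, ℤ)) (r s t : ℤ), 0 < r ∧ 0 < t ∧ r * t = n ∧ A = δ 0 0 * r ∧ C = δ 1 0 * r ∧
      B = δ 0 0 * s + δ 0 1 * t ∧ D = δ 1 0 * s + δ 1 1 * t := by
  have hAC : A ≠ 0 ∨ C ≠ 0 := by
    by_contra hcon
    push Not at hcon
    rw [hcon.1, hcon.2, zero_mul, mul_zero, sub_zero] at h
    omega
  have hg : 0 < Int.gcd A C := Int.gcd_pos_iff.2 hAC
  obtain ⟨a', c', hac, ha', hc'⟩ := Int.exists_gcd_one hg
  obtain ⟨δ, h0, h1⟩ := (Int.isCoprime_iff_gcd_eq_one.2 hac).exists_SL2_col 0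
  have hd := det_eq δ
  have hgz : (0 : ℤ) < Int.gcd A C := by exact_mod_cast hg
  have hrt : (Int.gcd A C : ℤ) * (-δ 1 0 * B + δ 0 0 * D) = n := by
    rw [h0, h1, ← h]
    linear_combination (-D) * ha' + B * hc'
  refine ⟨δ, Int.gcd A C, δ 1 1 * B - δ 0 1 * D, -δ 1 0 * B + δ 0 0 * D, hgz, ?_, hrt, ?_, ?_, ?_, ?_⟩
  · by_contra hcon
    push Not at hcon
    have := mul_nonpos_of_nonneg_of_nonpos hgz.le hcon
    omega
  · rw [h0]
    exact ha'
  · rw [h1]
    exact hc'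
  · linear_combination (-B) * hd
  · linear_combination (-D) * hd

/-- the affine map -/
noncomputable def aff (r s t : ℤ) (hr : 0 < r) (ht : 0 < t) (τ : ℍ) : ℍ :=
  ⟨((r : ℝ) * τ + (s : ℝ)) / (t : ℝ), by
    have hr' : (0 : ℝ) < r := by exact_mod_cast hr
    have ht' : (0 : ℝ) < t := by exact_mod_cast ht
    rw [Complex.div_ofReal_im]
    have : (((r : ℝ) : ℂ) * τ + ((s : ℝ) : ℂ)).im = r * τ.im := by simp
    rw [this]
    have := τ.im_pos
    positivity⟩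

lemma aff_coe (r s t : ℤ) (hr : 0 < r) (ht : 0 < t) (τ : ℍ) :
    ((aff r s t hr ht τ : ℍ) : ℂ) = ((r : ℂ) * τ + s) / t := by
  change (((r : ℝ) : ℂ) * τ + ((s : ℝ) : ℂ)) / ((t : ℝ) : ℂ) = _
  push_cast
  rfl

lemma aff_im (r s t : ℤ) (hr : 0 < r) (ht : 0 < t) (τ : ℍ) :
    (aff r s t hr ht τ).im = r * τ.im / t := by
  rw [← UpperHalfPlane.coe_im]
  change ((((r : ℝ) : ℂ) * τ + ((s : ℝ) : ℂ)) / ((t : ℝ) : ℂ)).im = _
  rw [Complex.div_ofReal_im]
  simp

lemma aff_tendsto (r s t : ℤ) (hr : 0 < r) (ht : 0 < t) :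
    Tendsto (aff r s t hr ht) atImInfty atImInfty := by
  have hr' : (0 : ℝ) < r := by exact_mod_cast hr
  have ht' : (0 : ℝ) < t := by exact_mod_cast ht
  unfold atImInfty
  rw [tendsto_comap_iff]
  have : (UpperHalfPlane.im ∘ aff r s t hr ht) = fun τ : ℍ => (r / t : ℝ) * τ.im := by
    funext τ
    simp only [Function.comp_apply]
    rw [aff_im]
    ring
  rw [this]
  exact tendsto_comap.const_mul_atTop (by positivity)

/-- the denominators do not vanish -/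
lemma denM {C D : ℤ} (h : C ≠ 0 ∨ D ≠ 0) (τ : ℍ) : (C : ℂ) * τ + D ≠ 0 := by
  intro h0
  have h1 : ((C : ℂ) * τ + D).im = C * τ.im := by simp
  rw [h0, Complex.zero_im] at h1
  have h2 : (C : ℝ) = 0 := (mul_eq_zero.1 h1.symm).resolve_right τ.im_pos.ne'
  have h3 : C = 0 := by exact_mod_cast h2
  rw [h3] at h0
  have h4 : (D : ℂ) = 0 := by simpa using h0
  have h5 : D = 0 := by exact_mod_cast h4
  rcases h with h | h
  · exact h h3
  · exact h h5

variable {N : ℕ} [NeZero N]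
variable (f : CuspForm (Gamma0 N : Subgroup (GL (Fin 2) ℝ)) 2)

/-- the point `M τ` -/
lemma exists_pt {A B C D n : ℤ} (hn : 0 < n) (h : A * D - B * C = n) (τ : ℍ) :
    ∃ τ' : ℍ, (τ' : ℂ) = ((A : ℂ) * τ + B) / ((C : ℂ) * τ + D) := by
  obtain ⟨δ, r, s, t, hr, ht, hrt, hA, hC, hB, hD⟩ := decomp hn h
  refine ⟨δ • aff r s t hr ht τ, ?_⟩
  have ht' : (t : ℂ) ≠ 0 := by exact_mod_cast ht.ne'
  rw [← mob_coe]
  unfold mob
  rw [aff_coe, hA, hB, hC, hD]
  push_cast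
  have h1 := den_ne δ (aff r s t hr ht τ)
  rw [aff_coe] at h1
  have h2 : ((δ 1 0 : ℤ) : ℂ) * r * τ + ((δ 1 0 : ℤ) * s + (δ 1 1 : ℤ) * t) ≠ 0 := by
    have : ((δ 1 0 : ℤ) : ℂ) * r * τ + ((δ 1 0 : ℤ) * s + (δ 1 1 : ℤ) * t) =
        t * (((δ 1 0 : ℤ) : ℂ) * (((r : ℂ) * τ + s) / t) + (δ 1 1 : ℤ)) := by
      field_simp
      ring
    rw [this]
    exact mul_ne_zero ht' h1
  rw [div_eq_div_iff h1 h2]
  field_simp
  ring

/-- the primitive along a matrix of determinant `n` -/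
theorem prim_M {A B C D n : ℤ} (hn : 0 < n) (h : A * D - B * C = n) {β : ℂ}
    (hf : ∀ z w : ℍ, (w : ℂ) * ((C : ℂ) * z + D) = (A : ℂ) * z + B →
      (n : ℂ) * f w = β * ((C : ℂ) * z + D) ^ 2 * f z) :
    ∃ c : ℂ, ∀ z w : ℍ, (w : ℂ) * ((C : ℂ) * z + D) = (A : ℂ) * z + B →
      prim f w = β * prim f z + c := by
  have hCD : C ≠ 0 ∨ D ≠ 0 := by
    by_contra hcon
    push Not at hcon
    rw [hcon.1, hcon.2, mul_zero, mul_zero, sub_zero] at h
    omega
  have hg : ∀ z ∈ HP, HasDerivAt (fun z => prim f (((A : ℂ) * z + B) / ((C : ℂ) * z + D)))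
      (β * (2 * Real.pi * Complex.I * f (ofComplex z))) z := by
    intro z hz
    set τ : ℍ := ⟨z, hz⟩ with hτ
    have hz' : z = (τ : ℂ) := rfl
    rw [hz', ofComplex_apply]
    have hd := denM hCD τ
    obtain ⟨w, hw⟩ := exists_pt hn h τ
    have hM : HasDerivAt (fun z : ℂ => ((A : ℂ) * z + B) / ((C : ℂ) * z + D))
        (n / ((C : ℂ) * τ + D) ^ 2) (τ : ℂ) := by
      have h1 : HasDerivAt (fun z : ℂ => (A : ℂ) * z + B) ((A : ℂ) * 1) τ :=
        ((hasDerivAt_id _).const_mul _).add_const _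
      have h2 : HasDerivAt (fun z : ℂ => (C : ℂ) * z + D) ((C : ℂ) * 1) τ :=
        ((hasDerivAt_id _).const_mul _).add_const _
      have h3 := h1.div h2 hd
      refine h3.congr_deriv ?_
      congr 1
      have hdet : (A : ℂ) * D - B * C = n := by
        exact_mod_cast congrArg (fun n : ℤ => (n : ℂ)) h
      linear_combination hdet
    have h1 := hasDerivAt_prim f w
    rw [hw] at h1
    have h2 := h1.comp (τ : ℂ) hM
    refine h2.congr_deriv ?_
    have h3 := hf τ w (by rw [hw, div_mul_cancel₀ _ hd])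
    have h4 : 2 * Real.pi * Complex.I * f w * (n / ((C : ℂ) * τ + D) ^ 2) =
        2 * Real.pi * Complex.I * (n * f w) / ((C : ℂ) * τ + D) ^ 2 := by ring
    rw [h4, h3]
    field_simp
  have hh : ∀ z ∈ HP, HasDerivAt (fun z => β * prim f z)
      (β * (2 * Real.pi * Complex.I * f (ofComplex z))) z := by
    intro z hz
    set τ : ℍ := ⟨z, hz⟩ with hτ
    have hz' : z = (τ : ℂ) := rfl
    rw [hz', ofComplex_apply]
    exact (hasDerivAt_prim f τ).const_mul β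
  obtain ⟨c, hc⟩ := const_of_deriv hg hh
  refine ⟨c, fun z w hzw => ?_⟩
  have hd := denM hCD z
  have h1 := hc z z.im_pos
  rw [← h1]
  congr 1
  rw [eq_div_iff hd, hzw]

/-- the limit values along a matrix of determinant `n` -/
lemma cval_M {A B C D n : ℤ} (hn : 0 < n) (h : A * D - B * C = n) {β c : ℂ}
    (hc : ∀ z w : ℍ, (w : ℂ) * ((C : ℂ) * z + D) = (A : ℂ) * z + B → prim f w = β * prim f z + c)
    (δ : SL(2, ℤ)) : ∃ (δ' : SL(2, ℤ)) (r : ℤ), 0 < r ∧ A * δ 0 0 + B * δ 1 0 = r * δ' 0 0 ∧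
      C * δ 0 0 + D * δ 1 0 = r * δ' 1 0 ∧ cval f δ' = β * cval f δ + c := by
  have hd := det_eq δ
  have h1 : (A * δ 0 0 + B * δ 1 0) * (C * δ 0 1 + D * δ 1 1) -
      (A * δ 0 1 + B * δ 1 1) * (C * δ 0 0 + D * δ 1 0) = n := by
    rw [← h]
    linear_combination (A * D - B * C) * hd
  obtain ⟨δ', r, s, t, hr, ht, hrt, hA, hC, hB, hD⟩ := decomp hn h1
  refine ⟨δ', r, hr, ?_, ?_, ?_⟩
  · rw [hA]
    ring
  · rw [hC]
    ring
  · have h2 := (cval_spec f δ').comp (aff_tendsto r s t hr ht)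
    have h3 := ((cval_spec f δ).const_mul β).add_const c
    refine tendsto_nhds_unique h2 (h3.congr fun τ => ?_)
    simp only [Function.comp_apply]
    rw [← hc (δ • τ) (δ' • aff r s t hr ht τ)]
    have ht' : (t : ℂ) ≠ 0 := by exact_mod_cast ht.ne'
    rw [← mob_coe, ← mob_coe]
    unfold mob
    rw [aff_coe]
    have e1 := den_ne δ' (aff r s t hr ht τ)
    rw [aff_coe] at e1
    have e2 := den_ne δ τ
    have hA' : (A : ℂ) * (δ 0 0 : ℤ) + B * (δ 1 0 : ℤ) = (δ' 0 0 : ℤ) * r := by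
      exact_mod_cast (congrArg (fun n : ℤ => (n : ℂ)) hA)
    have hB' : (A : ℂ) * (δ 0 1 : ℤ) + B * (δ 1 1 : ℤ) = (δ' 0 0 : ℤ) * s + (δ' 0 1 : ℤ) * t := by
      exact_mod_cast (congrArg (fun n : ℤ => (n : ℂ)) hB)
    have hC' : (C : ℂ) * (δ 0 0 : ℤ) + D * (δ 1 0 : ℤ) = (δ' 1 0 : ℤ) * r := by
      exact_mod_cast (congrArg (fun n : ℤ => (n : ℂ)) hC)
    have hD' : (C : ℂ) * (δ 0 1 : ℤ) + D * (δ 1 1 : ℤ) = (δ' 1 0 : ℤ) * s + (δ' 1 1 : ℤ) * t := by
      exact_mod_cast (congrArg (fun n : ℤ => (n : ℂ)) hD)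
    -- both sides as fractions
    have n1 : (A : ℂ) * ((((δ 0 0 : ℤ) : ℂ) * τ + (δ 0 1 : ℤ)) / (((δ 1 0 : ℤ) : ℂ) * τ + (δ 1 1 : ℤ))) + B =
        (((δ' 0 0 : ℤ) : ℂ) * (r * τ + s) + (δ' 0 1 : ℤ) * t) / (((δ 1 0 : ℤ) : ℂ) * τ + (δ 1 1 : ℤ)) := by
      rw [eq_div_iff e2, add_mul, mul_assoc, div_mul_cancel₀ _ e2]
      linear_combination (τ : ℂ) * hA' + hB'
    have n2 : (C : ℂ) * ((((δ 0 0 : ℤ) : ℂ) * τ + (δ 0 1 : ℤ)) / (((δ 1 0 : ℤ) : ℂ) * τ + (δ 1 1 : ℤ))) + D =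
        (((δ' 1 0 : ℤ) : ℂ) * (r * τ + s) + (δ' 1 1 : ℤ) * t) / (((δ 1 0 : ℤ) : ℂ) * τ + (δ 1 1 : ℤ)) := by
      rw [eq_div_iff e2, add_mul, mul_assoc, div_mul_cancel₀ _ e2]
      linear_combination (τ : ℂ) * hC' + hD'
    rw [n1, n2]
    have e3 : ((δ' 1 0 : ℤ) : ℂ) * (r * τ + s) + (δ' 1 1 : ℤ) * t ≠ 0 := by
      have : ((δ' 1 0 : ℤ) : ℂ) * (r * τ + s) + (δ' 1 1 : ℤ) * t =
          t * (((δ' 1 0 : ℤ) : ℂ) * (((r : ℂ) * τ + s) / t) + (δ' 1 1 : ℤ)) := by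
        field_simp
      rw [this]
      exact mul_ne_zero ht' e1
    have e4 : ((δ' 1 0 : ℤ) : ℂ) * (((r : ℂ) * τ + s) / t) + (δ' 1 1 : ℤ) =
        (((δ' 1 0 : ℤ) : ℂ) * (r * τ + s) + (δ' 1 1 : ℤ) * t) / t := by
      field_simp
    have e5 : ((δ' 0 0 : ℤ) : ℂ) * (((r : ℂ) * τ + s) / t) + (δ' 0 1 : ℤ) =
        (((δ' 0 0 : ℤ) : ℂ) * (r * τ + s) + (δ' 0 1 : ℤ) * t) / t := by
      field_simp
    rw [e4, e5, div_div_div_cancel_right₀ ht', div_mul_div_cancel₀ e3]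

/-- the symbol along a matrix of determinant `n` -/
theorem PsiC_M {A B C D n : ℤ} (hn : 0 < n) (h : A * D - B * C = n) {β c : ℂ}
    (hc : ∀ z w : ℍ, (w : ℂ) * ((C : ℂ) * z + D) = (A : ℂ) * z + B → prim f w = β * prim f z + c)
    {x y : ℚ} (hz : ((x, y) : ℚ × ℚ) ≠ 0) :
    PsiC f (A * x + B * y, C * x + D * y) = β * PsiC f (x, y) + c := by
  obtain ⟨δ, t, ht, hδ⟩ := exists_col hz
  rw [Prod.mk.injEq] at hδ
  obtain ⟨δ', r, hr, h1, h2, h3⟩ := cval_M f hn h hc δ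
  have hr' : (r : ℚ) ≠ 0 := by exact_mod_cast hr.ne'
  have h4 : (((A : ℚ) * x + B * y, (C : ℚ) * x + D * y) : ℚ × ℚ) =
      ((t * r) * (δ' 0 0 : ℤ), (t * r) * (δ' 1 0 : ℤ)) := by
    have h1' : (A : ℚ) * (δ 0 0 : ℤ) + B * (δ 1 0 : ℤ) = r * (δ' 0 0 : ℤ) := by
      exact_mod_cast (congrArg (fun n : ℤ => (n : ℚ)) h1)
    have h2' : (C : ℚ) * (δ 0 0 : ℤ) + D * (δ 1 0 : ℤ) = r * (δ' 1 0 : ℤ) := by
      exact_mod_cast (congrArg (fun n : ℤ => (n : ℚ)) h2)
    rw [hδ.1, hδ.2]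
    ext
    · simp only
      linear_combination t * h1'
    · simp only
      linear_combination t * h2'
  rw [h4, PsiC_col f δ' (mul_ne_zero ht hr'), h3, hδ.1, hδ.2, PsiC_col f δ ht]

/-- the relation for `U_l` -/
def UAt {N : ℕ} (f : CuspForm (Gamma0 N : Subgroup (GL (Fin 2) ℝ)) 2) (l : ℕ) (a : ℂ) : Prop :=
  ∀ m : ℕ, coef f (l * m) = a * coef f m

theorem prim_U {l : ℕ} (hl : 0 < l) {a : ℂ} (hH : UAt f l a) {w : ℂ} (hw : 0 < w.im) :
    ∑ i ∈ Finset.range l, prim f ((w + i) / l) = a * prim f w := by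
  have hlc : (l : ℂ) ≠ 0 := by exact_mod_cast hl.ne'
  have hlr : (0 : ℝ) < l := by exact_mod_cast hl
  have hinj : Function.Injective (fun n : ℕ => l * n) := fun a b h => Nat.eq_of_mul_eq_mul_left hl h
  have hw2 : ∀ i : ℕ, 0 < ((w + i) / l : ℂ).im := by
    intro i
    have : ((w + i) / l : ℂ).im = w.im / l := by
      rw [show ((w + i) / l : ℂ) = (w + i) / ((l : ℝ) : ℂ) by push_cast; rfl,
        Complex.div_ofReal_im]
      simp
    rw [this]
    positivity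
  have h2 : HasSum (fun n : ℕ => ∑ i ∈ Finset.range l, coef f n / n *
      Complex.exp (2 * Real.pi * Complex.I * n * ((w + i) / l)))
      (∑ i ∈ Finset.range l, prim f ((w + i) / l)) :=
    hasSum_sum fun i _ => hasSum_prim f (hw2 i)
  have h3 : HasSum (fun m : ℕ => coef f (l * m) / m *
      Complex.exp (2 * Real.pi * Complex.I * m * w)) (∑ i ∈ Finset.range l, prim f ((w + i) / l)) := by
    have h4 : ∀ n : ℕ, (∑ i ∈ Finset.range l, coef f n / n *
        Complex.exp (2 * Real.pi * Complex.I * n * ((w + i) / l))) =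
        coef f n / n * Complex.exp (2 * Real.pi * Complex.I * n * (w / l)) *
          (if l ∣ n then (l : ℂ) else 0) := by
      intro n
      rw [← sum_roots hl n, Finset.mul_sum]
      refine Finset.sum_congr rfl fun i _ => ?_
      have h7 : (2 * Real.pi * Complex.I * n * ((w + i) / l) : ℂ) =
          2 * Real.pi * Complex.I * n * (w / l) + 2 * Real.pi * Complex.I * n * (i / l) := by
        ring
      rw [h7, Complex.exp_add]
      ring
    simp only [h4] at h2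
    rw [← hinj.hasSum_iff] at h2
    · refine h2.congr_fun fun n => ?_
      simp only [Function.comp_apply]
      rw [if_pos (dvd_mul_right l n)]
      have h5 : (2 * Real.pi * Complex.I * ((l * n : ℕ) : ℂ) * (w / l) : ℂ) =
          2 * Real.pi * Complex.I * n * w := by
        push_cast
        field_simp
      rw [h5]
      rcases Nat.eq_zero_or_pos n with rfl | hn
      · simp
      · have hnc : (n : ℂ) ≠ 0 := by exact_mod_cast hn.ne'
        push_cast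
        field_simp
    · intro x hx
      rw [if_neg, mul_zero]
      intro hd
      obtain ⟨n, rfl⟩ := hd
      exact hx ⟨n, rfl⟩
  refine h3.unique (((hasSum_prim f hw).mul_left a).congr_fun fun m => ?_)
  rw [hH m]
  ring

/-- the relation for the symbol -/
theorem PsiC_U {l : ℕ} (hl : 0 < l) {a : ℂ} (hH : UAt f l a) (x y : ℚ) :
    ∑ i ∈ Finset.range l, PsiC f (x + i * y, l * y) = a * PsiC f (x, y) := by
  have hlc : (l : ℂ) ≠ 0 := by exact_mod_cast hl.ne'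
  have hlr : (0 : ℝ) < l := by exact_mod_cast hl
  have hlq : (l : ℚ) ≠ 0 := by exact_mod_cast hl.ne'
  by_cases hy : y = 0
  · subst hy
    simp only [mul_zero, add_zero, PsiC_inf, Finset.sum_const_zero]
  · have hly : (l : ℚ) * y ≠ 0 := mul_ne_zero hlq hy
    have h0 := (PsiC_vert f x hy).const_mul a
    refine tendsto_nhds_unique ?_ h0
    have hsc' : Tendsto (fun ε : ℝ => ε / (l : ℝ)) (𝓝[>] 0) (𝓝[>] 0) := by
      rw [tendsto_nhdsWithin_iff]
      constructor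
      · have : Tendsto (fun ε : ℝ => ε / (l : ℝ)) (𝓝 0) (𝓝 (0 / (l : ℝ))) :=
          (continuous_id.div_const _).tendsto 0
        rw [zero_div] at this
        exact this.mono_left nhdsWithin_le_nhds
      · filter_upwards [self_mem_nhdsWithin] with ε hε
        exact div_pos hε hlr
    have h2 : ∀ i ∈ Finset.range l, Tendsto (fun ε : ℝ =>
        prim f ((((x + i * y) / (l * y) : ℚ) : ℂ) + ((ε / l : ℝ) : ℂ) * Complex.I)) (𝓝[>] 0)
        (𝓝 (PsiC f (x + i * y, l * y))) := fun i _ =>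
      (PsiC_vert f (x + i * y) hly).comp hsc'
    have h3 := tendsto_finsetSum _ h2
    refine h3.congr' ?_
    filter_upwards [self_mem_nhdsWithin] with ε hε
    have hε0 : (0 : ℝ) < ε := hε
    have hw : 0 < (((x / y : ℚ) : ℂ) + ε * Complex.I).im := by
      simpa using hε0
    rw [← prim_U f hl hH hw]
    refine Finset.sum_congr rfl fun i _ => ?_
    congr 1
    have hyc : (y : ℂ) ≠ 0 := by exact_mod_cast hy
    push_cast
    field_simp
    ring

end Pool.Agent.H503.MB
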