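import Mathlib

/-!
# Symbols of level `p N'` which are new at `p`
-/

set_option autoImplicit false
set_option linter.unusedSectionVars false

namespace Pool.Agent.H503.MB

variable {R : Type*} [CommRing R]

/-- the symbols -/
structure IsMult (p N' : ℕ) (Ψ : ℚ × ℚ → R) (α : R) : Prop where
  hom : ∀ t x y : ℚ, t ≠ 0 → Ψ (t * x, t * y) = Ψ (x, y)
  inf : ∀ x : ℚ, Ψ (x, 0) = 0
  inv : ∀ a b c d : ℤ, a * d - b * c = 1 → (p : ℤ) * N' ∣ c → ∃ w : R, ∀ x y : ℚ,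
    (x, y) ≠ (0 : ℚ × ℚ) → Ψ (a * x + b * y, c * x + d * y) = Ψ (x, y) + w
  W : ∀ a b c d : ℤ, (p : ℤ) * a * (p * d) - b * c = p → (p : ℤ) * N' ∣ c → ∃ w : R, ∀ x y : ℚ,
    (x, y) ≠ (0 : ℚ × ℚ) → Ψ ((p * a : ℤ) * x + b * y, c * x + (p * d : ℤ) * y) = -α * Ψ (x, y) + w
  U : ∀ x y : ℚ, (x, y) ≠ (0 : ℚ × ℚ) → ∑ i ∈ Finset.range p, Ψ (x + i * y, p * y) = α * Ψ (x, y)
  sq : α ^ 2 = 1
  van : ∀ (a : ℤ) (n : ℕ), ¬ (p : ℤ) ∣ a → Ψ ((a : ℚ), (p : ℚ) ^ (n + 1)) = 0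

/-- `x / y` is a `p`-adic integer -/
def Pint (p : ℕ) (z : ℚ × ℚ) : Prop :=
  ∃ (a c : ℤ) (t : ℚ), t ≠ 0 ∧ z = (t * a, t * c) ∧ ¬ (p : ℤ) ∣ c

/-- the representation of a nonzero pair by coprime integers -/
lemma exists_int {z : ℚ × ℚ} (hz : z ≠ 0) : ∃ (a c : ℤ) (t : ℚ), t ≠ 0 ∧
    z = (t * a, t * c) ∧ IsCoprime a c := by
  obtain ⟨x, y⟩ := z
  set a : ℤ := x.num * y.den with ha
  set b : ℤ := y.num * x.den with hb
  have hxd : (x.den : ℚ) ≠ 0 := by exact_mod_cast x.den_ne_zero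
  have hyd : (y.den : ℚ) ≠ 0 := by exact_mod_cast y.den_ne_zero
  have hx : x = a / (x.den * y.den) := by
    rw [ha]
    push_cast
    rw [mul_div_mul_right _ _ hyd, Rat.num_div_den]
  have hy : y = b / (x.den * y.den) := by
    rw [hb]
    push_cast
    rw [mul_comm (x.den : ℚ), mul_div_mul_right _ _ hxd, Rat.num_div_den]
  have hab : a ≠ 0 ∨ b ≠ 0 := by
    by_contra hcon
    push Not at hcon
    apply hz
    rw [Prod.mk_eq_zero, hx, hy, hcon.1, hcon.2]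
    simp
  have hg : 0 < Int.gcd a b := by
    rw [Int.gcd_pos_iff]
    exact hab
  obtain ⟨a', b', hab', ha', hb'⟩ := Int.exists_gcd_one hg
  refine ⟨a', b', (Int.gcd a b : ℕ) / (x.den * y.den), ?_, ?_, Int.isCoprime_iff_gcd_eq_one.2 hab'⟩
  · refine div_ne_zero ?_ (mul_ne_zero hxd hyd)
    exact_mod_cast hg.ne'
  · ext
    · refine hx.trans ?_
      have h3 : (a : ℚ) = a' * (Int.gcd a b : ℕ) := by exact_mod_cast congrArg (fun n : ℤ => (n : ℚ)) ha'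
      rw [h3]
      ring
    · refine hy.trans ?_
      have h3 : (b : ℚ) = b' * (Int.gcd a b : ℕ) := by exact_mod_cast congrArg (fun n : ℤ => (n : ℚ)) hb'
      rw [h3]
      ring

section
variable {p : ℕ} (hp : p.Prime)

include hp in
lemma not_Pint {a c : ℤ} {t : ℚ} (ht : t ≠ 0) (ha : ¬ (p : ℤ) ∣ a) (hc : (p : ℤ) ∣ c) :
    ¬ Pint p (t * a, t * c) := by
  have hpp : Prime (p : ℤ) := Nat.prime_iff_prime_int.1 hp
  rintro ⟨a', c', t', ht', h, hc'⟩
  rw [Prod.mk.injEq] at h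
  have h1 : a * c' = a' * c := by
    have h2 : t * t' * ((a * c' - a' * c : ℤ) : ℚ) = 0 := by
      push_cast
      linear_combination (t' * c') * h.1 - (t' * a') * h.2
    have h3 := (mul_eq_zero.1 h2).resolve_left (mul_ne_zero ht ht')
    have h4 : a * c' - a' * c = 0 := by exact_mod_cast h3
    linarith
  have h5 : (p : ℤ) ∣ a * c' := by
    rw [h1]
    exact hc.mul_left _
  rcases hpp.dvd_or_dvd h5 with h6 | h6
  · exact ha h6
  · exact hc' h6

lemma Pint_of {a c : ℤ} {t : ℚ} (ht : t ≠ 0) (hc : ¬ (p : ℤ) ∣ c) :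
    Pint p (t * a, t * c) := ⟨a, c, t, ht, rfl, hc⟩

include hp in
/-- the representation -/
lemma Pint_cases {z : ℚ × ℚ} (hz : z ≠ 0) : ∃ (a c : ℤ) (t : ℚ), t ≠ 0 ∧ z = (t * a, t * c) ∧
    ((Pint p z ∧ ¬ (p : ℤ) ∣ c) ∨ (¬ Pint p z ∧ ¬ (p : ℤ) ∣ a ∧ (p : ℤ) ∣ c)) := by
  have hpp : Prime (p : ℤ) := Nat.prime_iff_prime_int.1 hp
  obtain ⟨a, c, t, ht, hz', hac⟩ := exists_int hz
  refine ⟨a, c, t, ht, hz', ?_⟩
  by_cases hc : (p : ℤ) ∣ c
  · have ha : ¬ (p : ℤ) ∣ a := fun h => hpp.not_isUnit (hac.isUnit_of_dvd' h hc)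
    refine Or.inr ⟨?_, ha, hc⟩
    rw [hz']
    exact not_Pint hp ht ha hc
  · refine Or.inl ⟨?_, hc⟩
    rw [hz']
    exact Pint_of ht hc

open Classical in
/-- the characteristic function -/
noncomputable def J (R : Type*) [CommRing R] (p : ℕ) (z : ℚ × ℚ) : R := if Pint p z then 1 else 0

lemma J_one {z : ℚ × ℚ} (h : Pint p z) : J R p z = 1 := by
  unfold J
  rw [if_pos h]

lemma J_zero {z : ℚ × ℚ} (h : ¬ Pint p z) : J R p z = 0 := by
  unfold J
  rw [if_neg h]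

lemma J_hom (t x y : ℚ) (ht : t ≠ 0) : J R p (t * x, t * y) = J R p (x, y) := by
  by_cases h : Pint p (x, y)
  · rw [J_one h]
    obtain ⟨a, c, r, hr, h1, hc⟩ := h
    rw [Prod.mk.injEq] at h1
    apply J_one
    refine ⟨a, c, t * r, mul_ne_zero ht hr, ?_, hc⟩
    rw [h1.1, h1.2]
    ext <;> simp only <;> ring
  · rw [J_zero h]
    apply J_zero
    rintro ⟨a, c, r, hr, h1, hc⟩
    rw [Prod.mk.injEq] at h1
    apply h
    refine ⟨a, c, t⁻¹ * r, mul_ne_zero (inv_ne_zero ht) hr, ?_, hc⟩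
    ext
    · simp only
      rw [mul_assoc, ← h1.1, inv_mul_cancel_left₀ ht]
    · simp only
      rw [mul_assoc, ← h1.2, inv_mul_cancel_left₀ ht]

include hp in
lemma J_inf (x : ℚ) (hx : x ≠ 0) : J R p (x, 0) = 0 := by
  apply J_zero
  have h := not_Pint hp (a := 1) (c := 0) hx
    (fun h => (Nat.prime_iff_prime_int.1 hp).not_isUnit (isUnit_of_dvd_one h)) (dvd_zero _)
  simpa using h

lemma det_ne {a b c d : ℤ} {δ : ℤ} (hδ : δ ≠ 0) (h : a * d - b * c = δ) {x y : ℚ}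
    (hz : (x, y) ≠ (0 : ℚ × ℚ)) : ((a * x + b * y, c * x + d * y) : ℚ × ℚ) ≠ 0 := by
  intro h0
  rw [Prod.mk_eq_zero] at h0
  apply hz
  have h1 : ((a : ℚ) * d - b * c) = δ := by
    exact_mod_cast congrArg (fun n : ℤ => (n : ℚ)) h
  have hδ' : (δ : ℚ) ≠ 0 := by exact_mod_cast hδ
  have h3 : (δ : ℚ) * x = 0 := by
    rw [← h1]
    linear_combination (d : ℚ) * h0.1 - b * h0.2
  have h4 : (δ : ℚ) * y = 0 := by
    rw [← h1]
    linear_combination (a : ℚ) * h0.2 - c * h0.1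
  rw [Prod.mk_eq_zero]
  exact ⟨(mul_eq_zero.1 h3).resolve_left hδ', (mul_eq_zero.1 h4).resolve_left hδ'⟩

include hp in
/-- `J` under `Γ₀(p)` -/
lemma J_inv {a b c d : ℤ} (h : a * d - b * c = 1) (hc : (p : ℤ) ∣ c) {x y : ℚ}
    (hz : (x, y) ≠ (0 : ℚ × ℚ)) : J R p (a * x + b * y, c * x + d * y) = J R p (x, y) := by
  have hpp : Prime (p : ℤ) := Nat.prime_iff_prime_int.1 hp
  have hd : ¬ (p : ℤ) ∣ d := by
    intro h1
    apply hpp.not_isUnit
    apply isUnit_of_dvd_one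
    rw [← h]
    exact dvd_sub (h1.mul_left _) (hc.mul_left _)
  have ha : ¬ (p : ℤ) ∣ a := by
    intro h1
    apply hpp.not_isUnit
    apply isUnit_of_dvd_one
    rw [← h]
    exact dvd_sub (h1.mul_right _) (hc.mul_left _)
  obtain ⟨u, v, t, ht, hz', hcase⟩ := Pint_cases hp hz
  have hz2 : ((a * x + b * y, c * x + d * y) : ℚ × ℚ) =
      (t * ((a * u + b * v : ℤ) : ℚ), t * ((c * u + d * v : ℤ) : ℚ)) := by
    rw [Prod.mk.injEq] at hz'
    rw [hz'.1, hz'.2]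
    push_cast
    ext <;> simp only <;> ring
  rcases hcase with ⟨h1, h2⟩ | ⟨h1, h2, h3⟩
  · rw [J_one h1, hz2]
    apply J_one
    apply Pint_of ht
    intro h4
    have h5 : (p : ℤ) ∣ d * v := (Int.dvd_add_right (hc.mul_right u)).1 h4
    rcases hpp.dvd_or_dvd h5 with h6 | h6
    · exact hd h6
    · exact h2 h6
  · rw [J_zero h1, hz2]
    apply J_zero
    apply not_Pint hp ht
    · intro h4
      have h5 : (p : ℤ) ∣ a * u := (Int.dvd_add_left (h3.mul_left b)).1 h4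
      rcases hpp.dvd_or_dvd h5 with h6 | h6
      · exact ha h6
      · exact h2 h6
    · exact dvd_add (hc.mul_right _) (h3.mul_left _)

include hp in
/-- `J` under the Atkin-Lehner matrices -/
lemma J_W {a b c d : ℤ} (h : (p : ℤ) * a * (p * d) - b * c = p) (hc : (p : ℤ) ∣ c) {x y : ℚ}
    (hz : (x, y) ≠ (0 : ℚ × ℚ)) :
    J R p ((p * a : ℤ) * x + b * y, c * x + (p * d : ℤ) * y) = 1 - J R p (x, y) := by
  have hpp : Prime (p : ℤ) := Nat.prime_iff_prime_int.1 hp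
  obtain ⟨c', rfl⟩ := hc
  have h' : (p : ℤ) * (a * d) - b * c' = 1 := by
    apply mul_left_cancel₀ hpp.ne_zero
    linear_combination h
  have hb : ¬ (p : ℤ) ∣ b := by
    intro h1
    apply hpp.not_isUnit
    apply isUnit_of_dvd_one
    rw [← h']
    exact dvd_sub (dvd_mul_right _ _) (h1.mul_right _)
  have hc' : ¬ (p : ℤ) ∣ c' := by
    intro h1
    apply hpp.not_isUnit
    apply isUnit_of_dvd_one
    rw [← h']
    exact dvd_sub (dvd_mul_right _ _) (h1.mul_left _)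
  obtain ⟨u, v, t, ht, hz', hcase⟩ := Pint_cases hp hz
  rw [Prod.mk.injEq] at hz'
  rcases hcase with ⟨h1, h2⟩ | ⟨h1, h2, h3⟩
  · rw [J_one h1, sub_self]
    have hz2 : (((p * a : ℤ) * x + b * y, ((p * c' : ℤ) : ℚ) * x + (p * d : ℤ) * y) : ℚ × ℚ) =
        (t * ((p * a * u + b * v : ℤ) : ℚ), t * ((p * (c' * u + d * v) : ℤ) : ℚ)) := by
      rw [hz'.1, hz'.2]
      push_cast
      ext <;> simp only <;> ring
    rw [hz2]
    apply J_zero
    apply not_Pint hp ht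
    · intro h4
      have h5 : (p : ℤ) ∣ b * v := (Int.dvd_add_right ⟨a * u, by ring⟩).1 h4
      rcases hpp.dvd_or_dvd h5 with h6 | h6
      · exact hb h6
      · exact h2 h6
    · exact dvd_mul_right _ _
  · rw [J_zero h1, sub_zero]
    obtain ⟨v', rfl⟩ := h3
    have hp0 : (p : ℚ) ≠ 0 := by exact_mod_cast hp.ne_zero
    have hz2 : (((p * a : ℤ) * x + b * y, ((p * c' : ℤ) : ℚ) * x + (p * d : ℤ) * y) : ℚ × ℚ) =
        ((t * p) * ((a * u + b * v' : ℤ) : ℚ), (t * p) * ((c' * u + p * (d * v') : ℤ) : ℚ)) := by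
      rw [hz'.1, hz'.2]
      push_cast
      ext <;> simp only <;> ring
    rw [hz2]
    apply J_one
    apply Pint_of (mul_ne_zero ht hp0)
    intro h4
    have h5 : (p : ℤ) ∣ c' * u := (Int.dvd_add_left (dvd_mul_right _ _)).1 h4
    rcases hpp.dvd_or_dvd h5 with h6 | h6
    · exact hc' h6
    · exact h2 h6

include hp in
/-- `J` is additive -/
lemma J_U {x y : ℚ} (hz : (x, y) ≠ (0 : ℚ × ℚ)) :
    ∑ i ∈ Finset.range p, J R p (x + i * y, p * y) = J R p (x, y) := by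
  have hpp : Prime (p : ℤ) := Nat.prime_iff_prime_int.1 hp
  have hp0 : (p : ℚ) ≠ 0 := by exact_mod_cast hp.ne_zero
  obtain ⟨u, v, t, ht, hz', hcase⟩ := Pint_cases hp hz
  rw [Prod.mk.injEq] at hz'
  have hterm : ∀ i : ℕ, ((x + i * y, p * y) : ℚ × ℚ) =
      (t * ((u + i * v : ℤ) : ℚ), t * ((p * v : ℤ) : ℚ)) := by
    intro i
    rw [hz'.1, hz'.2]
    push_cast
    ext <;> simp only <;> ring
  rcases hcase with ⟨h1, h2⟩ | ⟨h1, h2, h3⟩
  · rw [J_one h1]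
    -- the unique index
    have : Fact p.Prime := ⟨hp⟩
    have hv : ((v : ℤ) : ZMod p) ≠ 0 := by
      rw [Ne, ZMod.intCast_zmod_eq_zero_iff_dvd]
      exact h2
    set i0 : ℕ := (-(u : ZMod p) / v).val with hi0
    have hi0lt : i0 < p := ZMod.val_lt _
    have hiff : ∀ i ∈ Finset.range p, (p : ℤ) ∣ u + i * v ↔ i = i0 := by
      intro i hi
      rw [Finset.mem_range] at hi
      rw [← ZMod.intCast_zmod_eq_zero_iff_dvd]
      push_cast
      constructor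
      · intro h
        have h4 : (i : ZMod p) = -(u : ZMod p) / v := by
          field_simp
          linear_combination h
        rw [hi0, ← h4, ZMod.val_natCast, Nat.mod_eq_of_lt hi]
      · intro h
        rw [h, hi0, ZMod.natCast_zmod_val]
        field_simp
        ring
    rw [Finset.sum_eq_single i0]
    · rw [hterm]
      obtain ⟨w, hw⟩ := (hiff i0 (Finset.mem_range.2 hi0lt)).2 rfl
      rw [hw]
      apply J_one
      refine ⟨w, v, t * p, mul_ne_zero ht hp0, ?_, h2⟩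
      push_cast
      ext <;> simp only <;> ring
    · intro i hi hne
      rw [hterm]
      apply J_zero
      exact not_Pint hp ht (fun h => hne ((hiff i hi).1 h)) (dvd_mul_right _ _)
    · intro h
      exact absurd (Finset.mem_range.2 hi0lt) h
  · rw [J_zero h1]
    refine Finset.sum_eq_zero fun i _ => ?_
    rw [hterm]
    apply J_zero
    refine not_Pint hp ht (fun h => h2 ?_) (dvd_mul_right _ _)
    exact (Int.dvd_add_left (h3.mul_left _)).1 h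

end

section
variable {p N' : ℕ} (hp : p.Prime) (hpN : ¬ p ∣ N') {Ψ : ℚ × ℚ → R} {α : R} (hΨ : IsMult p N' Ψ α)

/-- the corrected symbol -/
noncomputable def Ps (p : ℕ) (Ψ : ℚ × ℚ → R) (z : ℚ × ℚ) : R := Ψ z - Ψ (0, 1) * J R p z

include hΨ in
lemma Ps_hom (t x y : ℚ) (ht : t ≠ 0) : Ps p Ψ (t * x, t * y) = Ps p Ψ (x, y) := by
  unfold Ps
  rw [hΨ.hom t x y ht, J_hom t x y ht]

include hΨ hp in
lemma Ps_inf (x : ℚ) (hx : x ≠ 0) : Ps p Ψ (x, 0) = 0 := by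
  unfold Ps
  rw [hΨ.inf, J_inf hp x hx, mul_zero, sub_zero]

include hΨ in
lemma Psi_T (n : ℤ) {x y : ℚ} (hz : (x, y) ≠ (0 : ℚ × ℚ)) : Ψ (x + n * y, y) = Ψ (x, y) := by
  obtain ⟨w, hw⟩ := hΨ.inv 1 n 0 1 (by ring) (dvd_zero _)
  have h1 := hw 1 0 (by simp)
  have h2 := hw x y hz
  push_cast at h1 h2
  rw [one_mul, mul_zero, add_zero, zero_mul, one_mul, add_zero, hΨ.inf, zero_add] at h1
  rw [one_mul, zero_mul, zero_add, one_mul, ← h1, add_zero] at h2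
  exact h2

include hΨ hp in
lemma Ps_T (n : ℤ) {x y : ℚ} (hz : (x, y) ≠ (0 : ℚ × ℚ)) : Ps p Ψ (x + n * y, y) = Ps p Ψ (x, y) := by
  unfold Ps
  rw [Psi_T hΨ n hz]
  have h := J_inv (R := R) hp (a := 1) (b := n) (c := 0) (d := 1) (by ring) (dvd_zero _) hz
  push_cast at h
  rw [one_mul, zero_mul, zero_add, one_mul] at h
  rw [h]

include hΨ hp in
/-- the value at `0` -/
lemma alpha_c : α * Ψ (0, 1) = Ψ (0, 1) := by
  have h1 := hΨ.U 0 1 (by simp)
  rw [← h1, Finset.sum_eq_single 0]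
  · push_cast
    have := hΨ.hom (p : ℚ) 0 1 (by exact_mod_cast hp.ne_zero)
    rw [mul_zero] at this
    rw [zero_mul, add_zero, this]
  · intro i hi hne
    rw [Finset.mem_range] at hi
    have h2 : ¬ (p : ℤ) ∣ (i : ℤ) := by
      intro h
      have h3 : p ∣ i := by exact_mod_cast h
      exact hne (Nat.eq_zero_of_dvd_of_lt h3 hi)
    have h3 := hΨ.van i 0 h2
    rw [zero_add, pow_one] at h3
    rw [zero_add, mul_one, mul_one]
    exact_mod_cast h3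
  · intro h
    exact absurd (Finset.mem_range.2 hp.pos) h

include hΨ hp in
lemma Ps_inv {a b c d : ℤ} (h : a * d - b * c = 1) (hc : (p : ℤ) * N' ∣ c) : ∃ w : R, ∀ x y : ℚ,
    (x, y) ≠ (0 : ℚ × ℚ) → Ps p Ψ (a * x + b * y, c * x + d * y) = Ps p Ψ (x, y) + w := by
  obtain ⟨w, hw⟩ := hΨ.inv a b c d h hc
  refine ⟨w, fun x y hz => ?_⟩
  unfold Ps
  rw [hw x y hz, J_inv hp h ((dvd_mul_right _ _).trans hc) hz]
  ring

include hΨ hp in
lemma Ps_W {a b c d : ℤ} (h : (p : ℤ) * a * (p * d) - b * c = p) (hc : (p : ℤ) * N' ∣ c) :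
    ∃ w : R, ∀ x y : ℚ, (x, y) ≠ (0 : ℚ × ℚ) →
      Ps p Ψ ((p * a : ℤ) * x + b * y, c * x + (p * d : ℤ) * y) = -α * Ps p Ψ (x, y) + w := by
  obtain ⟨w, hw⟩ := hΨ.W a b c d h hc
  refine ⟨w - Ψ (0, 1), fun x y hz => ?_⟩
  unfold Ps
  rw [hw x y hz, J_W hp h ((dvd_mul_right _ _).trans hc) hz]
  linear_combination (-J R p (x, y)) * alpha_c hp hΨ

include hΨ hp in
lemma Ps_U {x y : ℚ} (hz : (x, y) ≠ (0 : ℚ × ℚ)) :
    ∑ i ∈ Finset.range p, Ps p Ψ (x + i * y, p * y) = α * Ps p Ψ (x, y) := by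
  unfold Ps
  rw [Finset.sum_sub_distrib, hΨ.U x y hz, ← Finset.mul_sum, J_U hp hz]
  linear_combination (J R p (x, y)) * alpha_c hp hΨ

include hΨ hp in
/-- the values at `x / p^k` -/
lemma Ps_base (k : ℕ) : ∀ x : ℤ, Ps p Ψ ((x : ℚ), (p : ℚ) ^ k) = 0 := by
  have hp0 : (p : ℚ) ≠ 0 := by exact_mod_cast hp.ne_zero
  induction k with
  | zero =>
    intro x
    have h1 := Ps_T hp hΨ x (x := 0) (y := 1) (by simp)
    rw [mul_one, zero_add] at h1
    rw [pow_zero, h1]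
    unfold Ps
    have h2 : Pint p ((0, 1) : ℚ × ℚ) := by
      refine ⟨0, 1, 1, one_ne_zero, by simp, ?_⟩
      exact fun h => (Nat.prime_iff_prime_int.1 hp).not_isUnit (isUnit_of_dvd_one h)
    rw [J_one h2, mul_one, sub_self]
  | succ k ih =>
    intro x
    by_cases hx : (p : ℤ) ∣ x
    · obtain ⟨x', rfl⟩ := hx
      have h1 := Ps_hom hΨ (p : ℚ) (x' : ℚ) ((p : ℚ) ^ k) hp0
      rw [ih x'] at h1
      rw [← h1]
      congr 1
      push_cast
      ext <;> simp only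
      ring
    · unfold Ps
      have h2 : ¬ Pint p (((x : ℚ), (p : ℚ) ^ (k + 1)) : ℚ × ℚ) := by
        have := not_Pint hp (a := x) (c := (p : ℤ) ^ (k + 1)) (t := 1) one_ne_zero hx
          (dvd_pow_self _ (Nat.succ_ne_zero k))
        push_cast at this
        simpa using this
      rw [hΨ.van x k hx, J_zero h2, mul_zero, sub_zero]

include hΨ hp in
/-- adjacent cusps, primitive case -/
lemma edge0 (k : ℕ) {a b c d : ℤ} (hdet : a * d - b * c = (p : ℤ) ^ k) (hc : (N' : ℤ) ∣ c)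
    (hpN : ¬ p ∣ N') (hac : IsCoprime a c) :
    Ps p Ψ ((b : ℚ), (d : ℚ)) = Ps p Ψ ((a : ℚ), (c : ℚ)) := by
  have hpp : Prime (p : ℤ) := Nat.prime_iff_prime_int.1 hp
  have hp0 : (p : ℚ) ≠ 0 := by exact_mod_cast hp.ne_zero
  have hN : ¬ (p : ℤ) ∣ (N' : ℤ) := by exact_mod_cast hpN
  have hNp : IsCoprime (p : ℤ) (N' : ℤ) := hpp.coprime_iff_not_dvd.2 hN
  have hdq : ((a : ℚ) * d - b * c) = (p : ℚ) ^ k := by
    exact_mod_cast congrArg (fun n : ℤ => (n : ℚ)) hdet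
  by_cases hpc : (p : ℤ) ∣ c
  · have hpN' : (p : ℤ) * N' ∣ c := hNp.mul_dvd hpc hc
    obtain ⟨v, u, huv⟩ := hac
    -- `v a + u c = 1`
    have h1 : a * v - (-u) * c = 1 := by linear_combination huv
    obtain ⟨w, hw⟩ := Ps_inv hp hΨ h1 hpN'
    have huvq : ((v : ℚ) * a + u * c) = 1 := by
      exact_mod_cast congrArg (fun n : ℤ => (n : ℚ)) huv
    have e1 := hw 1 0 (by simp)
    have e2 := hw ((v * b + u * d : ℤ) : ℚ) ((p : ℚ) ^ k) (by
      intro h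
      rw [Prod.mk_eq_zero] at h
      exact pow_ne_zero k hp0 h.2)
    rw [Ps_base hp hΨ k] at e2
    rw [Ps_inf hp hΨ 1 one_ne_zero] at e1
    have e3 : (((a : ℚ) * ((v * b + u * d : ℤ) : ℚ) + ((-u : ℤ) : ℚ) * (p : ℚ) ^ k,
        (c : ℚ) * ((v * b + u * d : ℤ) : ℚ) + (v : ℚ) * (p : ℚ) ^ k) : ℚ × ℚ) = ((b : ℚ), (d : ℚ)) := by
      rw [← hdq]
      push_cast
      ext
      · simp only
        linear_combination (b : ℚ) * huvq
      · simp only
        linear_combination (d : ℚ) * huvq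
    have e4 : (((a : ℚ) * 1 + ((-u : ℤ) : ℚ) * 0, (c : ℚ) * 1 + (v : ℚ) * 0) : ℚ × ℚ) =
        ((a : ℚ), (c : ℚ)) := by
      ext <;> simp
    rw [e3] at e2
    rw [e4] at e1
    rw [e1, e2]
  · have hpac : IsCoprime ((p : ℤ) * a) c :=
      IsCoprime.mul_left (hpp.coprime_iff_not_dvd.2 hpc) hac
    obtain ⟨v, u, huv⟩ := hpac
    -- `v p a + u c = 1`
    have h1 : (p : ℤ) * a * (p * v) - (-u) * (p * c) = p := by
      linear_combination (p : ℤ) * huv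
    obtain ⟨w, hw⟩ := Ps_W hp hΨ h1 (mul_dvd_mul_left _ hc)
    have huvq : ((v : ℚ) * (p * a) + u * c) = 1 := by
      exact_mod_cast congrArg (fun n : ℤ => (n : ℚ)) huv
    have e1 := hw 1 0 (by simp)
    have e2 := hw ((p * v * b + u * d : ℤ) : ℚ) ((p : ℚ) ^ (k + 1)) (by
      intro h
      rw [Prod.mk_eq_zero] at h
      exact pow_ne_zero (k + 1) hp0 h.2)
    rw [Ps_base hp hΨ (k + 1)] at e2
    rw [Ps_inf hp hΨ 1 one_ne_zero] at e1
    have e3 : ((((p * a : ℤ) : ℚ) * ((p * v * b + u * d : ℤ) : ℚ) + ((-u : ℤ) : ℚ) * (p : ℚ) ^ (k + 1),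
        ((p * c : ℤ) : ℚ) * ((p * v * b + u * d : ℤ) : ℚ) + ((p * v : ℤ) : ℚ) * (p : ℚ) ^ (k + 1)) :
        ℚ × ℚ) = ((p : ℚ) * b, (p : ℚ) * d) := by
      rw [pow_succ, ← hdq]
      push_cast
      ext
      · simp only
        linear_combination (p : ℚ) * (b : ℚ) * huvq
      · simp only
        linear_combination (p : ℚ) * (d : ℚ) * huvq
    have e4 : ((((p * a : ℤ) : ℚ) * 1 + ((-u : ℤ) : ℚ) * 0,
        ((p * c : ℤ) : ℚ) * 1 + ((p * v : ℤ) : ℚ) * 0) : ℚ × ℚ) = ((p : ℚ) * a, (p : ℚ) * c) := by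
      ext <;> simp
    rw [e3, Ps_hom hΨ _ _ _ hp0] at e2
    rw [e4, Ps_hom hΨ _ _ _ hp0] at e1
    rw [e1, e2, mul_zero]

include hΨ hp hpN in
/-- **adjacent cusps** -/
theorem edge (k : ℕ) : ∀ a b c d : ℤ, a * d - b * c = (p : ℤ) ^ k → (N' : ℤ) ∣ c →
    Ps p Ψ ((b : ℚ), (d : ℚ)) = Ps p Ψ ((a : ℚ), (c : ℚ)) := by
  have hpp : Prime (p : ℤ) := Nat.prime_iff_prime_int.1 hp
  have hp0 : (p : ℚ) ≠ 0 := by exact_mod_cast hp.ne_zero
  have hN : ¬ (p : ℤ) ∣ (N' : ℤ) := by exact_mod_cast hpN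
  have hNp : IsCoprime (N' : ℤ) (p : ℤ) := (hpp.coprime_iff_not_dvd.2 hN).symm
  induction k with
  | zero =>
    intro a b c d hdet hc
    refine edge0 hp hΨ 0 hdet hc hpN ⟨d, -b, ?_⟩
    rw [pow_zero] at hdet
    linear_combination hdet
  | succ k ih =>
    intro a b c d hdet hc
    by_cases h : (p : ℤ) ∣ a ∧ (p : ℤ) ∣ c
    · obtain ⟨⟨a', rfl⟩, ⟨c', rfl⟩⟩ := h
      have h1 : a' * d - b * c' = (p : ℤ) ^ k := by
        apply mul_left_cancel₀ hpp.ne_zero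
        linear_combination hdet
      have h2 := ih a' b c' d h1 (hNp.dvd_of_dvd_mul_left hc)
      rw [h2]
      have h3 := Ps_hom hΨ (p : ℚ) (a' : ℚ) (c' : ℚ) hp0
      rw [← h3]
      push_cast
      rfl
    · refine edge0 hp hΨ (k + 1) hdet hc hpN ?_
      rw [Int.isCoprime_iff_gcd_eq_one]
      by_contra hg
      obtain ⟨l, hl, hlg⟩ := Nat.exists_prime_and_dvd hg
      have hla : (l : ℤ) ∣ a := (Int.natCast_dvd_natCast.2 hlg).trans (Int.gcd_dvd_left ..)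
      have hlc : (l : ℤ) ∣ c := (Int.natCast_dvd_natCast.2 hlg).trans (Int.gcd_dvd_right ..)
      have h1 : (l : ℤ) ∣ (p : ℤ) ^ (k + 1) := by
        rw [← hdet]
        exact dvd_sub (hla.mul_right _) (hlc.mul_left _)
      have h2 : l ∣ p ^ (k + 1) := by exact_mod_cast h1
      have h3 : l = p := (Nat.prime_dvd_prime_iff_eq hl hp).1 (hl.dvd_of_dvd_pow h2)
      rw [h3] at hla hlc
      exact h ⟨hla, hlc⟩

/-- the translations which fix the values of all translates at `ζ = a / c` -/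
def Fix (p N' : ℕ) (Ψ : ℚ × ℚ → R) (a c : ℤ) (x : ℚ) : Prop :=
  (∃ (i : ℕ) (x0 : ℤ), (p : ℚ) ^ i * x = x0) ∧ ∀ (A B C D : ℤ) (k : ℕ),
    A * D - B * C = (p : ℤ) ^ k → (N' : ℤ) ∣ C →
    Ps p Ψ (A * (a + x * c) + B * c, C * (a + x * c) + D * c) = Ps p Ψ (A * a + B * c, C * a + D * c)

include hΨ hp in
lemma Fix_add {a c : ℤ} {x y : ℚ} (hx : Fix p N' Ψ a c x) (hy : Fix p N' Ψ a c y) :
    Fix p N' Ψ a c (x + y) := by
  have hp0 : (p : ℚ) ≠ 0 := by exact_mod_cast hp.ne_zero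
  obtain ⟨⟨i, x0, hx0⟩, hx1⟩ := hx
  obtain ⟨⟨j, y0, hy0⟩, hy1⟩ := hy
  refine ⟨⟨i + j, x0 * p ^ j + y0 * p ^ i, ?_⟩, fun A B C D k hdet hC => ?_⟩
  · push_cast
    rw [← hx0, ← hy0]
    ring
  · have h1 := hy1 (p ^ i * A) (p ^ i * B + A * x0) (p ^ i * C) (p ^ i * D + C * x0) (2 * i + k) (by
      rw [pow_add, ← hdet]
      ring) (hC.mul_left _)
    have h2 := hx1 A B C D k hdet hC
    rw [← h2, ← Ps_hom hΨ ((p : ℚ) ^ i) (A * (a + x * c) + B * c) _ (pow_ne_zero _ hp0),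
      ← Ps_hom hΨ ((p : ℚ) ^ i) (A * (a + (x + y) * c) + B * c) _ (pow_ne_zero _ hp0)]
    push_cast at h1
    rw [← hx0] at h1
    convert h1 using 2
    · ext <;> simp only <;> ring
    · ext <;> simp only <;> ring

include hΨ hp in
lemma Fix_neg {a c : ℤ} {x : ℚ} (hx : Fix p N' Ψ a c x) : Fix p N' Ψ a c (-x) := by
  have hp0 : (p : ℚ) ≠ 0 := by exact_mod_cast hp.ne_zero
  obtain ⟨⟨i, x0, hx0⟩, hx1⟩ := hx
  refine ⟨⟨i, -x0, ?_⟩, fun A B C D k hdet hC => ?_⟩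
  · push_cast
    rw [← hx0]
    ring
  · have h1 := hx1 (p ^ i * A) (p ^ i * B - A * x0) (p ^ i * C) (p ^ i * D - C * x0) (2 * i + k) (by
      rw [pow_add, ← hdet]
      ring) (hC.mul_left _)
    rw [← Ps_hom hΨ ((p : ℚ) ^ i) (A * a + B * c) _ (pow_ne_zero _ hp0),
      ← Ps_hom hΨ ((p : ℚ) ^ i) (A * (a + -x * c) + B * c) _ (pow_ne_zero _ hp0)]
    push_cast at h1
    rw [← hx0] at h1
    refine Eq.trans ?_ (h1.symm.trans ?_)
    · congr 1
      ext <;> simp only <;> ring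
    · congr 1
      ext <;> simp only <;> ring

lemma Fix_zero {a c : ℤ} : Fix p N' Ψ a c 0 := by
  refine ⟨⟨0, 0, by simp⟩, fun A B C D k _ _ => ?_⟩
  rw [zero_mul, add_zero]

include hΨ hp in
lemma Fix_mul {a c : ℤ} {x : ℚ} (hx : Fix p N' Ψ a c x) (n : ℤ) : Fix p N' Ψ a c (n * x) := by
  have h1 : ∀ n : ℕ, Fix p N' Ψ a c (n * x) := by
    intro n
    induction n with
    | zero =>
      rw [Nat.cast_zero, zero_mul]
      exact Fix_zero
    | succ n ih =>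
      push_cast
      rw [add_mul, one_mul]
      exact Fix_add hp hΨ ih hx
  rcases Int.eq_nat_or_neg n with ⟨m, rfl | rfl⟩
  · exact_mod_cast h1 m
  · have := Fix_neg hp hΨ (h1 m)
    push_cast
    rw [neg_mul]
    exact this

include hΨ hp hpN in
/-- the basic translations -/
lemma Fix_gen {a b c d : ℤ} (hdet : a * d - b * c = 1) (hc : (N' : ℤ) ∣ c) {e : ℕ} {c' m : ℤ} {j : ℕ}
    (he : c = (p : ℤ) ^ e * c') (hm : (p : ℤ) ^ j - 1 = c' * d * m) :
    Fix p N' Ψ a c ((m : ℚ) / (p : ℚ) ^ e) := by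
  have hp0 : (p : ℚ) ≠ 0 := by exact_mod_cast hp.ne_zero
  refine ⟨⟨e, m, by field_simp⟩, fun A B C D k hABCD hC => ?_⟩
  have hxc : (m : ℚ) / (p : ℚ) ^ e * c = m * c' := by
    rw [he]
    push_cast
    field_simp
  have h1 := edge hp hpN hΨ (k + j) (A * (a + m * c') + B * c) (A * b + B * d)
    (C * (a + m * c') + D * c) (C * b + D * d) (by
      rw [pow_add, ← hABCD]
      linear_combination (A * D - B * C) * (hdet - hm)) (dvd_add (hC.mul_right _) (hc.mul_left _))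
  have h2 := edge hp hpN hΨ k (A * a + B * c) (A * b + B * d) (C * a + D * c) (C * b + D * d) (by
      rw [← hABCD]
      linear_combination (A * D - B * C) * hdet) (dvd_add (hC.mul_right _) (hc.mul_left _))
  rw [hxc]
  push_cast at h1 h2
  rw [← h1, h2]

include hΨ hp hpN in
/-- **all periods vanish** -/
theorem all_zero {J0 : ℕ} (hnil : (p : R) ^ J0 = 0) {a b c d : ℤ} (hdet : a * d - b * c = 1)
    (hc : (p : ℤ) * N' ∣ c) : Ψ ((a : ℚ), (c : ℚ)) = 0 := by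
  have hpp : Prime (p : ℤ) := Nat.prime_iff_prime_int.1 hp
  have hp0 : (p : ℚ) ≠ 0 := by exact_mod_cast hp.ne_zero
  by_cases hc0 : c = 0
  · rw [hc0]
    push_cast
    exact hΨ.inf _
  have hpc : (p : ℤ) ∣ c := (dvd_mul_right _ _).trans hc
  have hNc : (N' : ℤ) ∣ c := (dvd_mul_left _ _).trans hc
  have hpd : ¬ (p : ℤ) ∣ d := by
    intro h1
    apply hpp.not_isUnit
    apply isUnit_of_dvd_one
    rw [← hdet]
    exact dvd_sub (h1.mul_left _) (hpc.mul_left _)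
  have hpa : ¬ (p : ℤ) ∣ a := by
    intro h1
    apply hpp.not_isUnit
    apply isUnit_of_dvd_one
    rw [← hdet]
    exact dvd_sub (h1.mul_right _) (hpc.mul_left _)
  -- the prime to `p` part of `c`
  obtain ⟨e, c', hc', he⟩ : ∃ (e : ℕ) (c' : ℤ), ¬ (p : ℤ) ∣ c' ∧ c = (p : ℤ) ^ e * c' := by
    have := (Int.finiteMultiplicity_iff.2 ⟨(by
      rw [Int.natAbs_natCast]
      exact hp.one_lt.ne'), hc0⟩ : FiniteMultiplicity (p : ℤ) c).exists_eq_pow_mul_and_not_dvd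
    obtain ⟨c', h1, h2⟩ := this
    exact ⟨_, c', h2, h1⟩
  have hcd : ¬ (p : ℤ) ∣ c' * d := fun h => (hpp.dvd_or_dvd h).elim hc' hpd
  -- the exponent
  set M : ℕ := (c' * d).natAbs with hM
  have hpM : Nat.Coprime p M := by
    rw [Nat.Prime.coprime_iff_not_dvd hp, hM, ← Int.natCast_dvd]
    exact hcd
  set k0 : ℕ := M.totient with hk0
  have hM0 : 0 < M := by
    rw [hM, Int.natAbs_pos]
    intro h
    rw [h] at hcd
    exact hcd (dvd_zero _)
  have hk0pos : 0 < k0 := Nat.totient_pos.2 hM0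
  have hpow : (c' * d) ∣ (p : ℤ) ^ k0 - 1 := by
    have h1 := Nat.ModEq.pow_totient hpM
    have h2 : ((M : ℕ) : ℤ) ∣ (p : ℤ) ^ k0 - 1 := by
      have h3 := (Nat.modEq_iff_dvd.1 h1.symm)
      push_cast at h3
      exact h3
    have h4 : (c' * d) ∣ ((M : ℕ) : ℤ) := by
      rw [hM]
      exact Int.dvd_natAbs.2 dvd_rfl
    exact h4.trans h2
  obtain ⟨m2, hm2⟩ := hpow
  have hpm2 : ¬ (p : ℤ) ∣ m2 := by
    intro h
    have h1 : (p : ℤ) ∣ (p : ℤ) ^ k0 - 1 := by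
      rw [hm2]
      exact h.mul_left _
    have h2 : (p : ℤ) ∣ (p : ℤ) ^ k0 := dvd_pow_self _ hk0pos.ne'
    have h3 := dvd_sub h2 h1
    rw [sub_sub_cancel] at h3
    exact hpp.not_isUnit (isUnit_of_dvd_one h3)
  -- the numbers `(p^(k0 j) - 1) / (c' d)`
  have hmj : ∀ j : ℕ, ∃ m : ℤ, (p : ℤ) ^ (k0 * j) - 1 = c' * d * m := by
    intro j
    have h1 : (p : ℤ) ^ k0 - 1 ∣ (p : ℤ) ^ (k0 * j) - 1 := by
      rw [pow_mul]
      exact sub_one_dvd_pow_sub_one _ _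
    rw [hm2] at h1
    exact (dvd_mul_right _ _).trans h1
  choose m hm using hmj
  have hfixm : ∀ j, Fix p N' Ψ a c ((m j : ℚ) / (p : ℚ) ^ e) := fun j =>
    Fix_gen hp hpN hΨ hdet hNc he (hm j)
  have hcd0 : c' * d ≠ 0 := fun h => hcd (h ▸ dvd_zero _)
  have hdiff : ∀ j, m (j + 1) - m j = (p : ℤ) ^ (k0 * j) * m2 := by
    intro j
    apply mul_left_cancel₀ hcd0
    have h1 : (p : ℤ) ^ (k0 * (j + 1)) = (p : ℤ) ^ (k0 * j) * (p : ℤ) ^ k0 := by
      rw [← pow_add]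
      congr 1
    linear_combination (hm (j + 1)).symm.symm * (-1) + (hm j) + h1 + (p : ℤ) ^ (k0 * j) * hm2
  have hfix2 : ∀ (n : ℕ) (s : ℤ), Fix p N' Ψ a c ((p : ℚ) ^ n * m2 * s) := by
    intro n s
    set j := (n + e) / k0 with hj
    set r := (n + e) % k0 with hr
    have hjr : n + e = k0 * j + r := (Nat.div_add_mod _ _).symm
    have h1 := Fix_add hp hΨ (hfixm (j + 1)) (Fix_neg hp hΨ (hfixm j))
    have h2 := Fix_mul hp hΨ h1 ((p : ℤ) ^ r * s)
    have h3 : (((p : ℤ) ^ r * s : ℤ) : ℚ) * ((m (j + 1) : ℚ) / (p : ℚ) ^ e + -((m j : ℚ) / (p : ℚ) ^ e)) =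
        (p : ℚ) ^ n * m2 * s := by
      have h4 : (m (j + 1) : ℚ) - m j = (p : ℚ) ^ (k0 * j) * m2 := by
        exact_mod_cast congrArg (fun n : ℤ => (n : ℚ)) (hdiff j)
      have h5 : (p : ℚ) ^ n * (p : ℚ) ^ e = (p : ℚ) ^ (k0 * j) * (p : ℚ) ^ r := by
        rw [← pow_add, ← pow_add, hjr]
      push_cast
      field_simp
      linear_combination ((p : ℚ) ^ r * s) * h4 - ((m2 : ℚ) * s) * h5
    rw [← h3]
    exact h2
  -- the recursion
  have hcq : (c : ℚ) ≠ 0 := by exact_mod_cast hc0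
  have hstep : ∀ n : ℕ, α * Ps p Ψ ((a : ℚ), (p : ℚ) ^ n * c) =
      p * Ps p Ψ ((a : ℚ), (p : ℚ) ^ (n + 1) * c) := by
    intro n
    have hne : ((a : ℚ), (p : ℚ) ^ n * c) ≠ (0 : ℚ × ℚ) := by
      intro h
      rw [Prod.mk_eq_zero] at h
      exact mul_ne_zero (pow_ne_zero _ hp0) hcq h.2
    rw [← Ps_U hp hΨ hne]
    have hterm : ∀ i ∈ Finset.range p, Ps p Ψ ((a : ℚ) + i * ((p : ℚ) ^ n * c), p * ((p : ℚ) ^ n * c)) =
        Ps p Ψ ((a : ℚ), (p : ℚ) ^ (n + 1) * c) := by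
      intro i _
      obtain ⟨t, s, hts⟩ : ∃ t s : ℤ, (i : ℤ) = p * t + m2 * s := by
        obtain ⟨u, v, huv⟩ := hpp.coprime_iff_not_dvd.2 hpm2
        exact ⟨u * i, v * i, by linear_combination (-(i : ℤ)) * huv⟩
      have htsq : (i : ℚ) = p * t + m2 * s := by exact_mod_cast congrArg (fun n : ℤ => (n : ℚ)) hts
      have h1 := (hfix2 n s).2 1 0 0 ((p : ℤ) ^ (n + 1)) (n + 1) (by ring) (dvd_zero _)
      push_cast at h1
      simp only [one_mul, zero_mul, add_zero, zero_add] at h1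
      rw [← h1]
      have hne2 : ((a : ℚ) + (p : ℚ) ^ n * m2 * s * c, (p : ℚ) ^ (n + 1) * c) ≠ (0 : ℚ × ℚ) := by
        intro h
        rw [Prod.mk_eq_zero] at h
        exact mul_ne_zero (pow_ne_zero _ hp0) hcq h.2
      have h2 := Ps_T hp hΨ t hne2
      rw [← h2]
      congr 1
      rw [htsq]
      ext
      · simp only
        ring
      · simp only
        ring
    rw [Finset.sum_congr rfl hterm, Finset.sum_const, Finset.card_range, nsmul_eq_mul]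
  have hiter : ∀ n : ℕ, Ps p Ψ ((a : ℚ), (c : ℚ)) =
      (α * p) ^ n * Ps p Ψ ((a : ℚ), (p : ℚ) ^ n * c) := by
    intro n
    induction n with
    | zero => simp
    | succ n ih =>
      rw [ih, pow_succ]
      have h1 := hstep n
      have h2 := hΨ.sq
      linear_combination (α * p) ^ n * (α * h1 - Ps p Ψ ((a : ℚ), (p : ℚ) ^ n * c) * h2)
  have h1 := hiter J0
  rw [mul_pow, hnil, mul_zero, zero_mul] at h1
  unfold Ps at h1
  have h2 : ¬ Pint p (((a : ℚ), (c : ℚ)) : ℚ × ℚ) := by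
    have := not_Pint hp (a := a) (c := c) (t := 1) one_ne_zero hpa hpc
    simpa using this
  rw [J_zero h2, mul_zero, sub_zero] at h1
  exact h1

end

end Pool.Agent.H503.MB
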