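import Pool.Agent.H503.MB.Fin

/-!
# The main theorem for primes which divide the level exactly once
-/

set_option autoImplicit false
set_option linter.unusedSectionVars false

open Complex UpperHalfPlane MatrixGroups CongruenceSubgroup Filter Topology ModularForm

namespace Pool.Agent.H503.MB

open Pool.Agent.H503.TA Pool.Agent.H503.MU

section
variable {p N' : ℕ} [NeZero (p * N')]
variable (f : CuspForm (Gamma0 (p * N') : Subgroup (GL (Fin 2) ℝ)) 2)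

theorem coreM {e w : ℕ} (h : GoodW p e w) (hpN : ¬ p ∣ N')
    (hreal : ∀ n, (coef f n).im = 0) {s : ℂ} (hs : s = 1 ∨ s = -1) {Ω : ℂ} (hΩ0 : Ω ≠ 0)
    (hΩ : ∀ w : ℂ, (∃ c, IsPer f c ∧ w = c + s * (starRingEnd ℂ) c) ↔ ∃ k : ℤ, w = k * Ω)
    {α : ℤ} (hα : α = 1 ∨ α = -1) (hU : UAt f p α) (hAL : ALAt f p N' α)
    {q : ℕ} (hq : q.Prime) (hq1 : ((p * N' : ℕ) : ℤ) ∣ q - 1) {cq : ℤ} (hTq : HeckeAt f q cq)
    (hcq : cq ≠ q + 1) :
    ∃ t₀ : ℕ, ∀ t ≥ t₀, ∃ k : (ZMod (p ^ (t + 1 + e)))ˣ → ℤ,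
      (∀ [NeZero (p ^ (t + 1 + e))] (χ : DirichletCharacter ℂ (p ^ (t + 1 + e))), χ ≠ 1 →
        χ (-1) = s → ee p * SchiB f χ = Ω * Lh k χ) ∧
      ∀ [NeZero (p ^ (t + 1 + e))] (ζ : ℂ), IsPrimitiveRoot ζ (p ^ (t + 1)) →
        ∃ χ : DirichletCharacter ℂ (p ^ (t + 1 + e)),
          χ (gW h (t + 1) : ZMod (p ^ (t + 1 + e))) * ζ = 1 ∧ χ (-1) = s ∧
          ∀ y : ℂ, IsIntegral ℤ y → Lh k χ ≠ p * y := by
  have hpf : Fact p.Prime := ⟨h.prime⟩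
  obtain ⟨K, hK, hKs⟩ := exists_K (s := s) f hΩ0 hΩ hq hq1 hTq
  have hD : (cq - (q + 1) : ℤ) ≠ 0 := by
    intro h0
    apply hcq
    linarith
  have hnew : IsNew p N' α K := ⟨fun x y => K_U f hΩ0 hK h.prime.pos hU x y,
    fun a b c d hdet hc => K_W f hΩ0 hK h.prime hAL a b c d hdet hc, hα⟩
  obtain ⟨n₀, hn₀⟩ := not_constD hKs h.prime hpN hnew hD
  refine ⟨n₀, fun t ht => ?_⟩
  have hM0 : NeZero (p ^ (t + 1 + e)) := ⟨pow_ne_zero _ h.prime.ne_zero⟩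
  have hM2 : 2 < p ^ (t + 1 + e) :=
    lt_of_lt_of_le h.two (Nat.pow_le_pow_right h.prime.pos (Nat.le_add_left e _))
  obtain ⟨k, hk1, hk2, hk3⟩ := exists_kM f h.prime hpN (by omega) hM2 hreal hs hΩ0 hΩ
  refine ⟨k, fun χ hχ1 hχ => hk3 χ hχ1 hχ, fun ζ hζ => ?_⟩
  by_contra hcon
  push Not at hcon
  apply hn₀ (t + e) (by omega)
  refine const_of_kM f hpN h t hΩ0 hD hKs hK hk1 fun b => ?_
  exact wild_dvd h t hs hk2 hζ (fun χ h1 h2 => hcon χ h1 h2) b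

/-- the algebraic part -/
def AlgPartM {M : ℕ} (c : ℕ → ℂ) (e : ℕ) (Ω : ℂ) (χ : DirichletCharacter ℂ M)
    (l : integralClosure ℤ ℂ) : Prop :=
  (l : ℂ) ∈ Algebra.adjoin ℤ (Set.range χ) ∧ ∃ L : ℂ → ℂ, Differentiable ℂ L ∧
    (∀ s : ℂ, 2 < s.re → L s = LSeries (fun n => χ n * c n) s) ∧
    e * (∑ a ∈ Finset.range M, χ⁻¹ (a : ZMod M) *
      Complex.exp (2 * Real.pi * Complex.I * a / M)) * L 1 = Ω * (l : ℂ)

lemma algPartM_of {M : ℕ} [NeZero M] (hM : 1 < M) {χ : DirichletCharacter ℂ M} (hχ : χ.IsPrimitive)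
    {Ω : ℂ} {e : ℕ} {k : (ZMod M)ˣ → ℤ} (hk : χ ≠ 1 → e * SchiB f χ = Ω * Lh k χ) :
    AlgPartM (coef f) e Ω χ ⟨Lh k χ, Lh_integral k χ⟩ := by
  have hne : χ ≠ 1 := by
    rintro rfl
    rw [DirichletCharacter.isPrimitive_def, DirichletCharacter.conductor_one] at hχ
    omega
  obtain ⟨L, hL1, hL2, hL3⟩ := exists_LB f hχ
  refine ⟨Lh_adjoin k χ, L, hL1, hL2, ?_⟩
  rw [← tau_eq_range, mul_assoc, hL3, hk hne]

theorem finalM (hp : p.Prime) (hpN : ¬ p ∣ N')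
    (hreal : ∀ n, (coef f n).im = 0) {s : ℂ} (hs : s = 1 ∨ s = -1) {Ω : ℂ} (hΩ0 : Ω ≠ 0)
    (hΩ : ∀ w : ℂ, (∃ c, IsPer f c ∧ w = c + s * (starRingEnd ℂ) c) ↔ ∃ k : ℤ, w = k * Ω)
    {α : ℤ} (hα : α = 1 ∨ α = -1) (hU : UAt f p α) (hAL : ALAt f p N' α)
    {q : ℕ} (hq : q.Prime) (hq1 : ((p * N' : ℕ) : ℤ) ∣ q - 1) {cq : ℤ} (hTq : HeckeAt f q cq)
    (hcq : cq ≠ q + 1) :
    ∃ n₀ : ℕ, ∀ n ≥ n₀,
      (∃ χ : DirichletCharacter ℂ (p ^ n), χ.IsPrimitive ∧ χ (-1) = s ∧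
        ∃ l : integralClosure ℤ ℂ, AlgPartM (coef f) (ee p) Ω χ l ∧
          ¬ (p : integralClosure ℤ ℂ) ∣ l) ∧
      (p = 2 ∨ p = 3 → ∀ χ : DirichletCharacter ℂ (p ^ n), χ.IsPrimitive → χ (-1) = s →
        ∃ l : integralClosure ℤ ℂ, AlgPartM (coef f) (ee p) Ω χ l ∧
          ¬ (p : integralClosure ℤ ℂ) ∣ l) := by
  have key : ∀ (e w : ℕ) (h : GoodW p e w) (hg : p = 2 ∨ p = 3 → Good p e), ∃ n₀ : ℕ, ∀ n ≥ n₀,
      (∃ χ : DirichletCharacter ℂ (p ^ n), χ.IsPrimitive ∧ χ (-1) = s ∧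
        ∃ l : integralClosure ℤ ℂ, AlgPartM (coef f) (ee p) Ω χ l ∧
          ¬ (p : integralClosure ℤ ℂ) ∣ l) ∧
      (p = 2 ∨ p = 3 → ∀ χ : DirichletCharacter ℂ (p ^ n), χ.IsPrimitive → χ (-1) = s →
        ∃ l : integralClosure ℤ ℂ, AlgPartM (coef f) (ee p) Ω χ l ∧
          ¬ (p : integralClosure ℤ ℂ) ∣ l) := by
    intro e w h hg
    obtain ⟨t₀, ht₀⟩ := coreM f h hpN hreal hs hΩ0 hΩ hα hU hAL hq hq1 hTq hcq
    refine ⟨t₀ + 1 + e, fun n hn => ?_⟩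
    obtain ⟨t, rfl⟩ : ∃ t, n = t + 1 + e := ⟨n - 1 - e, by omega⟩
    have hM0 : NeZero (p ^ (t + 1 + e)) := ⟨pow_ne_zero _ h.prime.ne_zero⟩
    have hM1 : 1 < p ^ (t + 1 + e) := Nat.one_lt_pow (by omega) h.prime.one_lt
    obtain ⟨k, hk1, hk2⟩ := ht₀ t (by omega)
    have hout : ∀ χ : DirichletCharacter ℂ (p ^ (t + 1 + e)), χ.IsPrimitive → χ (-1) = s →
        (∀ y : ℂ, IsIntegral ℤ y → Lh k χ ≠ p * y) →
        ∃ l : integralClosure ℤ ℂ, AlgPartM (coef f) (ee p) Ω χ l ∧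
          ¬ (p : integralClosure ℤ ℂ) ∣ l := by
      intro χ hχ hχs hnd
      refine ⟨⟨Lh k χ, Lh_integral k χ⟩, algPartM_of f hM1 hχ (fun hne => hk1 χ hne hχs), ?_⟩
      rintro ⟨y, hy⟩
      refine hnd y y.2 ?_
      have := congrArg (fun z : integralClosure ℤ ℂ => (z : ℂ)) hy
      simpa using this
    constructor
    · have hpos : p ^ (t + 1) ≠ 0 := pow_ne_zero _ h.prime.ne_zero
      have hζ := Complex.isPrimitiveRoot_exp (p ^ (t + 1)) hpos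
      obtain ⟨χ, hχ1, hχs, hnd⟩ := hk2 _ hζ
      have hpr := primitive_of_wild h t hζ hχ1
      exact ⟨χ, hpr, hχs, hout χ hpr hχs hnd⟩
    · intro hp23 χ hχ hχs
      have hgood := hg hp23
      have hprim := primitive_g hgood t χ hχ
      have hζ : IsPrimitiveRoot (χ (1 + p ^ e : ZMod (p ^ (t + 1 + e))))⁻¹ (p ^ (t + 1)) := hprim.inv
      obtain ⟨χ', hχ1, hχs', hnd⟩ := hk2 _ hζ
      have hne : χ (1 + p ^ e : ZMod (p ^ (t + 1 + e))) ≠ 0 :=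
        hprim.ne_zero (pow_ne_zero _ h.prime.ne_zero)
      have heq : χ' = χ := by
        refine char_ext hgood h (t + 1) ?_ (hχs'.trans hχs.symm)
        rw [gW_val] at hχ1 ⊢
        field_simp at hχ1
        exact hχ1
      rw [heq] at hnd
      exact hout χ hχ hχs hnd
  rcases hp.eq_two_or_odd with h2 | hodd
  · subst h2
    exact key 2 1 goodW_two (fun _ => good_two)
  · refine key 1 _ (goodW_odd hp (by rintro rfl; simp at hodd)) ?_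
    rintro (h2 | h3)
    · rw [h2] at hodd
      simp at hodd
    · subst h3
      exact good_three

end

end Pool.Agent.H503.MB
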