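import Pool.Agent.H503.MB.Rel
import Pool.Agent.H503.MU.Out

/-!
# Assembly for primes which divide the level exactly once
-/

set_option autoImplicit false
set_option linter.unusedSectionVars false

open Complex UpperHalfPlane MatrixGroups CongruenceSubgroup Filter Topology ModularForm

namespace Pool.Agent.H503.MB

open Pool.Agent.H503.TA Pool.Agent.H503.MU

/-- the factor -/
def ee (p : ℕ) : ℕ := if p = 2 then 1 else 2

lemma ee_prime {p : ℕ} (hp : p.Prime) : ¬ (p : ℤ) ∣ ee p := by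
  unfold ee
  split_ifs with h
  · rw [h]
    norm_num
  · intro h1
    have h2 : p ∣ 2 := by exact_mod_cast h1
    exact h ((Nat.prime_dvd_prime_iff_eq hp Nat.prime_two).1 h2)

variable {p N' : ℕ} [NeZero (p * N')]
variable (f : CuspForm (Gamma0 (p * N') : Subgroup (GL (Fin 2) ℝ)) 2)

/-- the cusps `a / p^n`, `n ≥ 1`, are equivalent to `1 / p` -/
lemma PsiC_periodM (hp : p.Prime) (hpN : ¬ p ∣ N') {n : ℕ} (hn : 1 ≤ n) {b : ℤ}
    (hb : ¬ (p : ℤ) ∣ b) :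
    ∃ c, IsPer f c ∧ PsiC f ((b : ℚ), (p : ℚ) ^ n) = PsiC f (1, p) + c := by
  obtain ⟨A, B, C, d, hdet, hC, h2, h3⟩ := cusp_matrix hp hpN hb hn
  let γ : SL(2, ℤ) := ⟨!![A, B; C, d], by
    rw [Matrix.det_fin_two_of]
    exact hdet⟩
  have hγ : γ ∈ Gamma0 (p * N') := by
    rw [Gamma0_mem, ZMod.intCast_zmod_eq_zero_iff_dvd]
    push_cast
    exact hC
  obtain ⟨c, hc⟩ := prim_smul f hγ
  refine ⟨c, ⟨γ, hγ, hc⟩, ?_⟩
  have h4 := PsiC_inv f hc (x := 1) (y := p) (by simp)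
  rw [← h4]
  have e00 : γ 0 0 = A := rfl
  have e01 : γ 0 1 = B := rfl
  have e10 : γ 1 0 = C := rfl
  have e11 : γ 1 1 = d := rfl
  rw [e00, e01, e10, e11]
  congr 2
  · rw [← h2]
    push_cast
    ring
  · have : ((C + d * p : ℤ) : ℚ) = (((p : ℤ) ^ n : ℤ) : ℚ) := by rw [h3]
    push_cast at this
    linear_combination -this

/-- the integral functions on the units attached to `f` -/
theorem exists_kM (hp : p.Prime) (hpN : ¬ p ∣ N') {m : ℕ} [NeZero (p ^ m)] (hm : 1 ≤ m)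
    (hM : 2 < p ^ m) (hreal : ∀ n, (coef f n).im = 0) {s : ℂ}
    (hs : s = 1 ∨ s = -1) {Ω : ℂ} (hΩ0 : Ω ≠ 0)
    (hΩ : ∀ w : ℂ, (∃ c, IsPer f c ∧ w = c + s * (starRingEnd ℂ) c) ↔ ∃ k : ℤ, w = k * Ω) :
    ∃ k : (ZMod (p ^ m))ˣ → ℤ,
      (∀ u : (ZMod (p ^ m))ˣ, (ee p : ℂ) * (PhiC f s (((u : ZMod (p ^ m)).val : ℚ), (p : ℚ) ^ m) -
        (1 + s) / 2 * PhiC f s (1, p)) = k u * Ω) ∧
      (∀ u, (k (-u) : ℂ) = s * k u) ∧
      ∀ χ : DirichletCharacter ℂ (p ^ m), χ ≠ 1 → χ (-1) = s →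
        ee p * SchiB f χ = Ω * Lh k χ := by
  have hpp : Prime (p : ℤ) := Nat.prime_iff_prime_int.1 hp
  have hss : s * s = 1 := by rcases hs with rfl | rfl <;> norm_num
  have hcop : ∀ a : (ZMod (p ^ m))ˣ, ¬ (p : ℤ) ∣ (((a : ZMod (p ^ m)).val : ℕ) : ℤ) := by
    intro a h
    have h1 : p ∣ (a : ZMod (p ^ m)).val := by exact_mod_cast h
    have h2 : ((a : ZMod (p ^ m)).val).Coprime (p ^ m) := by
      rw [← ZMod.isUnit_iff_coprime, ZMod.natCast_zmod_val]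
      exact a.isUnit
    have h3 := Nat.dvd_gcd h1 (dvd_pow_self p (by omega : m ≠ 0))
    rw [h2] at h3
    exact hp.one_lt.ne' (Nat.dvd_one.1 h3)
  -- the values
  set P : (ZMod (p ^ m))ˣ → ℂ := fun u => PsiC f (((u : ZMod (p ^ m)).val : ℚ), (p : ℚ) ^ m)
    with hP
  have hPneg : ∀ u, P (-u) = (starRingEnd ℂ) (P u) := by
    intro u
    rw [hP]
    simp only
    rw [← PsiC_conj f hreal, ← Int.cast_natCast (R := ℚ) (u : ZMod (p ^ m)).val,
      ← Int.cast_neg, ← Nat.cast_pow,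
      ← PsiC_zmod f (M := p ^ m) (-(((u : ZMod (p ^ m)).val : ℕ) : ℤ))]
    congr 3
    push_cast
    rw [ZMod.natCast_zmod_val]
  set F : (ZMod (p ^ m))ˣ → ℂ := fun u => P u + s * (starRingEnd ℂ) (P u) with hF
  have hFneg : ∀ u, F (-u) = s * F u := by
    intro u
    rw [hF]
    simp only
    rw [hPneg, Complex.conj_conj]
    linear_combination (-(starRingEnd ℂ) (P u)) * hss
  set F0 : ℂ := PhiC f s (1, p) with hF0
  -- integrality
  have hint : ∀ u, ∃ k : ℤ, F u - F0 = k * Ω := by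
    intro u
    obtain ⟨c, hc, h1⟩ := PsiC_periodM f hp hpN hm (hcop u)
    obtain ⟨k, hk⟩ := (hΩ _).1 ⟨c, hc, rfl⟩
    refine ⟨k, ?_⟩
    rw [← hk, hF, hP, hF0]
    push_cast at h1
    unfold PhiC
    simp only [h1, map_add]
    ring
  have hint2 : ∃ k : ℤ, (ee p : ℂ) * ((1 - s) / 2 * F0) = k * Ω := by
    rcases hs with rfl | rfl
    · exact ⟨0, by simp⟩
    · by_cases h2 : p = 2
      · refine ⟨0, ?_⟩
        have h3 : PsiC f (1, (p : ℚ)) = (starRingEnd ℂ) (PsiC f (1, (p : ℚ))) := by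
          rw [← PsiC_conj f hreal, ← PsiC_T f (-1) (p : ℚ) 1]
          congr 2
          rw [h2]
          norm_num
        have h4 : F0 = 0 := by
          rw [hF0]
          unfold PhiC
          rw [← h3]
          ring
        rw [h4]
        simp
      · have h3 : (ee p : ℂ) = 2 := by
          unfold ee
          rw [if_neg h2]
          norm_num
        obtain ⟨k1, hk1⟩ := hint 1
        obtain ⟨k2, hk2⟩ := hint (-1)
        refine ⟨-(k1 + k2), ?_⟩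
        rw [hFneg] at hk2
        rw [h3]
        push_cast
        linear_combination (-1 : ℂ) * hk1 - hk2
  obtain ⟨k0, hk0⟩ := hint2
  have hk : ∀ u, ∃ k : ℤ, (ee p : ℂ) * (F u - (1 + s) / 2 * F0) = k * Ω := by
    intro u
    obtain ⟨k1, hk1⟩ := hint u
    refine ⟨ee p * k1 + k0, ?_⟩
    push_cast
    linear_combination (ee p : ℂ) * hk1 + hk0
  choose k hk using hk
  have hk2 : ∀ u, (k (-u) : ℂ) = s * k u := by
    intro u
    apply mul_right_cancel₀ hΩ0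
    rw [← hk, hFneg, mul_assoc, ← hk]
    have h1 : s * ((1 + s) / 2) = (1 + s) / 2 := by linear_combination (1 / 2 : ℂ) * hss
    linear_combination (ee p : ℂ) * F0 * h1
  refine ⟨k, ?_, hk2, ?_⟩
  · intro u
    rw [← hk]
    rfl
  · intro χ hχ1 hχ
    have hinv : χ⁻¹ (-1) = s := chi_inv_neg hs hχ
    have hsum0 : ∑ u : (ZMod (p ^ m))ˣ, χ⁻¹ (u : ZMod (p ^ m)) = 0 := by
      have h1 := MulChar.sum_eq_zero_of_ne_one (χ := χ⁻¹) (inv_ne_one.2 hχ1)
      rw [← Finset.sum_filter_of_ne (p := fun a : ZMod (p ^ m) => IsUnit a)] at h1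
      · rw [← h1]
        refine Finset.sum_bij (fun a _ => (a : ZMod (p ^ m))) ?_ ?_ ?_ ?_
        · intro a _
          simp
        · intro a _ b _ hab
          exact Units.ext hab
        · intro b hb
          rw [Finset.mem_filter] at hb
          obtain ⟨u, hu⟩ := hb.2
          exact ⟨u, Finset.mem_univ _, hu⟩
        · intro a _
          rfl
      · intro a _ hne
        by_contra hna
        apply hne
        rw [MulChar.map_nonunit _ hna]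
    have hS : SchiB f χ = ∑ u : (ZMod (p ^ m))ˣ, χ⁻¹ (u : ZMod (p ^ m)) * P u := by
      unfold SchiB
      rw [hP]
      push_cast
      rfl
    have h2 : ∑ u : (ZMod (p ^ m))ˣ, χ⁻¹ (u : ZMod (p ^ m)) * (starRingEnd ℂ) (P u) =
        s * SchiB f χ := by
      rw [hS, ← Equiv.sum_comp (Equiv.neg (ZMod (p ^ m))ˣ), Finset.mul_sum]
      refine Finset.sum_congr rfl fun u _ => ?_
      rw [Equiv.neg_apply, hPneg, Complex.conj_conj, Units.val_neg,
        ← neg_one_mul (u : ZMod (p ^ m)), map_mul, hinv]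
      ring
    have h3 := two_Lh hM hs hk2 hχ
    have h4 : ∑ u : (ZMod (p ^ m))ˣ, χ⁻¹ (u : ZMod (p ^ m)) *
        ((ee p : ℂ) * (F u - (1 + s) / 2 * F0)) =
        Ω * ∑ u : (ZMod (p ^ m))ˣ, χ⁻¹ (u : ZMod (p ^ m)) * k u := by
      rw [Finset.mul_sum]
      refine Finset.sum_congr rfl fun u _ => ?_
      rw [hk]
      ring
    have h5 : ∑ u : (ZMod (p ^ m))ˣ, χ⁻¹ (u : ZMod (p ^ m)) *
        ((ee p : ℂ) * (F u - (1 + s) / 2 * F0)) =
        (ee p : ℂ) * (SchiB f χ + s * (s * SchiB f χ)) := by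
      have h6 : ∑ u : (ZMod (p ^ m))ˣ, χ⁻¹ (u : ZMod (p ^ m)) *
          ((ee p : ℂ) * (F u - (1 + s) / 2 * F0)) =
          (ee p : ℂ) * (∑ u : (ZMod (p ^ m))ˣ, χ⁻¹ (u : ZMod (p ^ m)) * P u +
            s * ∑ u : (ZMod (p ^ m))ˣ, χ⁻¹ (u : ZMod (p ^ m)) * (starRingEnd ℂ) (P u)) -
          (ee p : ℂ) * ((1 + s) / 2 * F0) * ∑ u : (ZMod (p ^ m))ˣ, χ⁻¹ (u : ZMod (p ^ m)) := by
        rw [Finset.mul_sum _ _ s, ← Finset.sum_add_distrib, Finset.mul_sum, Finset.mul_sum,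
          ← Finset.sum_sub_distrib]
        refine Finset.sum_congr rfl fun u _ => ?_
        rw [hF]
        ring
      rw [h6, hsum0, h2, ← hS]
      ring
    rw [h3, h5] at h4
    linear_combination (1 / 2 : ℂ) * h4 - (1 / 2 : ℂ) * (ee p : ℂ) * SchiB f χ * hss

/-- if `p` divides all differences of `k`, then the symbol is constant modulo `p D` -/
theorem const_of_kM (hpN : ¬ p ∣ N') {e w : ℕ} (h : GoodW p e w) (t : ℕ) {s Ω : ℂ} (hΩ0 : Ω ≠ 0)
    {K : ℚ × ℚ → ℤ} {D : ℤ} (hD : D ≠ 0) (hKs : IsIntSym (p * N') D K)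
    (hK : ∀ z, ((D : ℤ) : ℂ) * PhiC f s z = K z * Ω)
    {k : (ZMod (p ^ (t + 1 + e)))ˣ → ℤ}
    (hk : ∀ u : (ZMod (p ^ (t + 1 + e)))ˣ, (ee p : ℂ) *
      (PhiC f s (((u : ZMod (p ^ (t + 1 + e))).val : ℚ), (p : ℚ) ^ (t + 1 + e)) -
      (1 + s) / 2 * PhiC f s (1, p)) = k u * Ω)
    (hall : ∀ b : (ZMod (p ^ (t + 1 + e)))ˣ, (p : ℤ) ∣ k (b * gW h (t + 1) ^ (p ^ t)) - k b) :
    ConstD p D K (t + e) := by
  have hM0 : NeZero (p ^ (t + 1 + e)) := ⟨pow_ne_zero _ h.prime.ne_zero⟩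
  have hpp : Prime (p : ℤ) := Nat.prime_iff_prime_int.1 h.prime
  have hte : t + e + 1 = t + 1 + e := by ring
  have hDk : ∀ u v : (ZMod (p ^ (t + 1 + e)))ˣ, D * (k v - k u) =
      ee p * (K (((v : ZMod (p ^ (t + 1 + e))).val : ℚ), (p : ℚ) ^ (t + e + 1)) -
        K (((u : ZMod (p ^ (t + 1 + e))).val : ℚ), (p : ℚ) ^ (t + e + 1))) := by
    intro u v
    have h1 : ((D * (k v - k u) : ℤ) : ℂ) * Ω =
        ((ee p * (K (((v : ZMod (p ^ (t + 1 + e))).val : ℚ), (p : ℚ) ^ (t + e + 1)) -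
        K (((u : ZMod (p ^ (t + 1 + e))).val : ℚ), (p : ℚ) ^ (t + e + 1))) : ℤ) : ℂ) * Ω := by
      rw [hte]
      push_cast
      linear_combination (-(D : ℂ)) * hk v + (D : ℂ) * hk u +
        (ee p : ℂ) * hK (((v : ZMod (p ^ (t + 1 + e))).val : ℚ), (p : ℚ) ^ (t + 1 + e)) -
        (ee p : ℂ) * hK (((u : ZMod (p ^ (t + 1 + e))).val : ℚ), (p : ℚ) ^ (t + 1 + e))
    exact_mod_cast mul_right_cancel₀ hΩ0 h1
  -- the value at an integer
  have hval : ∀ a : ℤ, ¬ (p : ℤ) ∣ a → ∃ u : (ZMod (p ^ (t + 1 + e)))ˣ,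
      (((p : ℤ) ^ (t + 1 + e)) ∣ ((u : ZMod (p ^ (t + 1 + e))).val : ℤ) - a) ∧
      K ((a : ℚ), (p : ℚ) ^ (t + e + 1)) =
        K (((u : ZMod (p ^ (t + 1 + e))).val : ℚ), (p : ℚ) ^ (t + e + 1)) := by
    intro a ha
    have hu : IsUnit ((a : ℤ) : ZMod (p ^ (t + 1 + e))) := by
      rw [ZMod.coe_int_isUnit_iff_isCoprime]
      push_cast
      exact (hpp.coprime_iff_not_dvd.2 ha).pow_left
    obtain ⟨u, hu⟩ := hu
    have hd : ((p : ℤ) ^ (t + 1 + e)) ∣ ((u : ZMod (p ^ (t + 1 + e))).val : ℤ) - a := by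
      have h1 : ((((u : ZMod (p ^ (t + 1 + e))).val : ℤ) - a : ℤ) : ZMod (p ^ (t + 1 + e))) = 0 := by
        push_cast
        rw [ZMod.natCast_zmod_val, hu, sub_self]
      rw [ZMod.intCast_zmod_eq_zero_iff_dvd] at h1
      push_cast at h1
      exact h1
    refine ⟨u, hd, ?_⟩
    have h2 := K_congr hKs (p := p) (n := t + e + 1) (a := a)
      (a' := ((u : ZMod (p ^ (t + 1 + e))).val : ℤ)) (by rw [hte]; exact hd)
    push_cast at h2
    exact h2.symm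
  intro a a' ha ha' haa
  obtain ⟨u, hu, hKu⟩ := hval a ha
  obtain ⟨v, hv, hKv⟩ := hval a' ha'
  have hdd : ((p : ℤ) ^ (t + e)) ∣ ((v : ZMod (p ^ (t + 1 + e))).val : ℤ) -
      ((u : ZMod (p ^ (t + 1 + e))).val : ℤ) := by
    have h1 : (p : ℤ) ^ (t + e) ∣ (p : ℤ) ^ (t + 1 + e) := pow_dvd_pow _ (by omega)
    have h2 := dvd_add (dvd_sub (h1.trans hv) (h1.trans hu)) haa
    have h3 : ((v : ZMod (p ^ (t + 1 + e))).val : ℤ) - ((u : ZMod (p ^ (t + 1 + e))).val : ℤ) =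
        ((v : ZMod (p ^ (t + 1 + e))).val : ℤ) - a' - (((u : ZMod (p ^ (t + 1 + e))).val : ℤ) - a) +
        (a' - a) := by ring
    rw [h3]
    exact h2
  obtain ⟨j, hj⟩ := wild_kernel h t hdd
  have h3 := wild_iter h t hall u j
  rw [← hj] at h3
  have h4 := hDk u v
  rw [← hKu, ← hKv] at h4
  -- divisibility by `D`
  have h5 := K_cusp hKs h.prime hpN ha (n := t + e + 1) (by omega)
  have h6 := K_cusp hKs h.prime hpN ha' (n := t + e + 1) (by omega)
  obtain ⟨x, hx⟩ := dvd_sub h6 h5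
  rw [sub_sub_sub_cancel_right] at hx
  rw [hx] at h4 ⊢
  have h7 : k v - k u = ee p * x := by
    have : D * (k v - k u) = D * (ee p * x) := by
      rw [h4]
      ring
    exact mul_left_cancel₀ hD this
  rw [h7] at h3
  have h8 := (hpp.dvd_or_dvd h3).resolve_left (ee_prime h.prime)
  rw [mul_comm (p : ℤ)]
  exact mul_dvd_mul_left _ h8

end Pool.Agent.H503.MB
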