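import Pool.Agent.H503.MB.Alg
import Pool.Agent.H503.MU.NotConst

/-!
# The values at the cusps `a / p^n` modulo `p D` when `p` divides the level exactly once
-/

set_option autoImplicit false
set_option linter.unusedSectionVars false

open Pool.Agent.H503.MU

namespace Pool.Agent.H503.MB

/-- the relations at `p` -/
structure IsNew (p N' : ℕ) (α : ℤ) (K : ℚ × ℚ → ℤ) : Prop where
  U : ∀ x y : ℚ, ∑ i ∈ Finset.range p, K (x + i * y, p * y) = α * K (x, y)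
  W : ∀ a b c d : ℤ, (p : ℤ) * a * (p * d) - b * c = p → (p : ℤ) * N' ∣ c → ∃ w : ℤ, ∀ x y : ℚ,
    (x, y) ≠ (0 : ℚ × ℚ) → K ((p * a : ℤ) * x + b * y, c * x + (p * d : ℤ) * y) = -α * K (x, y) + w
  sq : α = 1 ∨ α = -1

/-- modulo `p D` the value at `a / p^(n+1)`, `p ∤ a`, depends on `a` modulo `p^n` only -/
def ConstD (p : ℕ) (D : ℤ) (K : ℚ × ℚ → ℤ) (n : ℕ) : Prop :=
  ∀ a a' : ℤ, ¬ (p : ℤ) ∣ a → ¬ (p : ℤ) ∣ a' → (p : ℤ) ^ n ∣ a' - a →
    (p : ℤ) * D ∣ K ((a' : ℚ), (p : ℚ) ^ (n + 1)) - K ((a : ℚ), (p : ℚ) ^ (n + 1))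

variable {p N' : ℕ} {D α : ℤ} {K : ℚ × ℚ → ℤ}
  (hK : IsIntSym (p * N') D K) (hp : p.Prime) (hpN : ¬ p ∣ N') (hnew : IsNew p N' α K)

include hp hpN in
/-- the matrices which carry the cusp `1 / p` to `b / p^n` -/
lemma cusp_matrix {b : ℤ} (hb : ¬ (p : ℤ) ∣ b) {n : ℕ} (hn : 1 ≤ n) :
    ∃ A B C d : ℤ, A * d - B * C = 1 ∧ (p : ℤ) * N' ∣ C ∧ A + B * p = b ∧
      C + d * p = (p : ℤ) ^ n := by
  have hpp : Prime (p : ℤ) := Nat.prime_iff_prime_int.1 hp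
  obtain ⟨m, rfl⟩ := Nat.exists_eq_add_of_le' hn
  -- the inverse of `b`
  have hcop : IsCoprime b ((p : ℤ) ^ (m + 1)) := (hpp.coprime_iff_not_dvd.2 hb).symm.pow_right
  obtain ⟨u, v, huv⟩ := hcop
  have hcop2 : IsCoprime ((p : ℤ) ^ (m + 1)) (N' : ℤ) := by
    refine IsCoprime.pow_left (hpp.coprime_iff_not_dvd.2 ?_)
    intro h
    exact hpN (by exact_mod_cast h)
  obtain ⟨x, y, hxy⟩ := hcop2
  -- the entry
  set d : ℤ := u * (y * N') + (p : ℤ) ^ m * (x * (p : ℤ) ^ (m + 1)) with hd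
  have hd1 : ∃ B : ℤ, b * d - 1 = B * (p : ℤ) ^ (m + 1) := by
    refine ⟨-v - b * u * x + b * (p : ℤ) ^ m * x, ?_⟩
    rw [hd]
    linear_combination (b * u) * hxy + huv
  obtain ⟨B, hB⟩ := hd1
  have hd2 : (N' : ℤ) ∣ (p : ℤ) ^ m - d := by
    refine ⟨(p : ℤ) ^ m * y - u * y, ?_⟩
    rw [hd]
    linear_combination (-(p : ℤ) ^ m) * hxy
  refine ⟨b - B * p, B, (p : ℤ) ^ (m + 1) - d * p, d, ?_, ?_, ?_, ?_⟩
  · linear_combination hB
  · obtain ⟨t, ht⟩ := hd2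
    refine ⟨t, ?_⟩
    rw [pow_succ]
    linear_combination (p : ℤ) * ht
  · ring
  · ring

include hK hp hpN in
/-- the cusps `b / p^n` are all equivalent -/
lemma K_cusp {b : ℤ} (hb : ¬ (p : ℤ) ∣ b) {n : ℕ} (hn : 1 ≤ n) :
    D ∣ K ((b : ℚ), (p : ℚ) ^ n) - K (1, p) := by
  obtain ⟨A, B, C, d, hdet, hC, h2, h3⟩ := cusp_matrix hp hpN hb hn
  obtain ⟨w, hw⟩ := hK.inv A B C d hdet (by push_cast; exact hC)
  have h1 := hw 1 p (by simp)
  have h2' : (A : ℚ) * 1 + B * p = b := by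
    rw [← h2]
    push_cast
    ring
  have h3' : (C : ℚ) * 1 + d * p = (p : ℚ) ^ n := by
    have : ((C + d * p : ℤ) : ℚ) = (((p : ℤ) ^ n : ℤ) : ℚ) := by rw [h3]
    push_cast at this
    linear_combination this
  rw [h2', h3'] at h1
  rw [h1]
  exact ⟨w, by ring⟩

include hp hnew in
lemma not_dvd_sub : ¬ (p : ℤ) ∣ p - α := by
  intro h
  have h1 : (p : ℤ) ∣ α := by
    have := dvd_sub (dvd_refl (p : ℤ)) h
    rwa [sub_sub_cancel] at this
  have hpp : Prime (p : ℤ) := Nat.prime_iff_prime_int.1 hp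
  apply hpp.not_isUnit
  rcases hnew.sq with h2 | h2
  · rw [h2] at h1
    exact isUnit_of_dvd_one h1
  · rw [h2, dvd_neg] at h1
    exact isUnit_of_dvd_one h1

include hK hp hpN hnew in
lemma K_one : D ∣ (p - α) * K (1, p) := by
  have hpp : Prime (p : ℤ) := Nat.prime_iff_prime_int.1 hp
  have h1 := hnew.U 1 p
  have h2 : D ∣ ∑ i ∈ Finset.range p, (K (1 + i * p, p * p) - K (1, p)) := by
    refine Finset.dvd_sum fun i _ => ?_
    have hb : ¬ (p : ℤ) ∣ 1 + i * p := by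
      intro h
      exact hpp.not_isUnit (isUnit_of_dvd_one ((dvd_add_left (dvd_mul_left _ _)).1 h))
    have h3 := K_cusp hK hp hpN hb (n := 2) (by norm_num)
    push_cast at h3
    rw [pow_two] at h3
    exact h3
  rw [Finset.sum_sub_distrib, h1, Finset.sum_const, Finset.card_range, nsmul_eq_mul] at h2
  have h3 : (p - α) * K (1, p) = -(α * K (1, p) - p * K (1, p)) := by ring
  rw [h3, dvd_neg]
  exact h2

include hp in
lemma dvd_cancel {v : ℕ} {m x : ℤ} (hm : ¬ (p : ℤ) ∣ m) (h : (p : ℤ) ^ v ∣ m * x) :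
    (p : ℤ) ^ v ∣ x := by
  have hpp : Prime (p : ℤ) := Nat.prime_iff_prime_int.1 hp
  exact (hpp.coprime_iff_not_dvd.2 hm).pow_left.dvd_of_dvd_mul_left h

include hp hnew in
lemma alpha_cancel {v : ℕ} {x : ℤ} (h : (p : ℤ) ^ v ∣ α * x) : (p : ℤ) ^ v ∣ x := by
  rcases hnew.sq with h2 | h2
  · rw [h2, one_mul] at h
    exact h
  · rw [h2, neg_one_mul, dvd_neg] at h
    exact h

include hK hp hpN hnew in
/-- one step -/
lemma val_of_const {v : ℕ} (hv : (p : ℤ) ^ v ∣ D) {n : ℕ} (hn : 1 ≤ n) (hc : ConstD p D K n)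
    {a : ℤ} (ha : ¬ (p : ℤ) ∣ a) : (p : ℤ) ^ (v + 1) ∣ K ((a : ℚ), (p : ℚ) ^ n) := by
  have hpp : Prime (p : ℤ) := Nat.prime_iff_prime_int.1 hp
  have h0 : (p : ℤ) ^ v ∣ K (1, p) :=
    dvd_cancel hp (not_dvd_sub hp hnew) (hv.trans (K_one hK hp hpN hnew))
  have h1 : (p : ℤ) ^ v ∣ K ((a : ℚ), (p : ℚ) ^ (n + 1)) := by
    have h2 := hv.trans (K_cusp hK hp hpN ha (n := n + 1) (by omega))
    have h3 := dvd_add h2 h0
    rwa [sub_add_cancel] at h3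
  apply alpha_cancel hp hnew
  rw [← hnew.U]
  have h3 : ∑ i ∈ Finset.range p, K ((a : ℚ) + i * (p : ℚ) ^ n, p * (p : ℚ) ^ n) =
      ∑ i ∈ Finset.range p, (K ((a : ℚ) + i * (p : ℚ) ^ n, p * (p : ℚ) ^ n) -
        K ((a : ℚ), (p : ℚ) ^ (n + 1))) + p * K ((a : ℚ), (p : ℚ) ^ (n + 1)) := by
    rw [Finset.sum_sub_distrib, Finset.sum_const, Finset.card_range, nsmul_eq_mul]
    ring
  rw [h3]
  refine dvd_add (Finset.dvd_sum fun i _ => ?_) ?_
  · have h5 : (p : ℤ) ∣ i * (p : ℤ) ^ n :=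
      (dvd_pow_self _ (by omega)).mul_left _
    have h4 := hc a (a + i * (p : ℤ) ^ n) ha (fun h => ha ((dvd_add_left h5).1 h)) ⟨i, by ring⟩
    push_cast at h4
    rw [pow_succ' (p : ℚ) n] at h4 ⊢
    refine dvd_trans ?_ h4
    rw [pow_succ']
    exact mul_dvd_mul_left _ hv
  · rw [pow_succ']
    exact mul_dvd_mul_left _ h1

include hp hnew in
/-- the values at the lower levels -/
lemma val_down {v : ℕ} {n : ℕ} (hn : 1 ≤ n)
    (h : ∀ a : ℤ, ¬ (p : ℤ) ∣ a → (p : ℤ) ^ v ∣ K ((a : ℚ), (p : ℚ) ^ (n + 1)))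
    {a : ℤ} (ha : ¬ (p : ℤ) ∣ a) : (p : ℤ) ^ v ∣ K ((a : ℚ), (p : ℚ) ^ n) := by
  apply alpha_cancel hp hnew
  rw [← hnew.U]
  refine Finset.dvd_sum fun i _ => ?_
  have h5 : (p : ℤ) ∣ i * (p : ℤ) ^ n := (dvd_pow_self _ (by omega)).mul_left _
  have h4 := h (a + i * (p : ℤ) ^ n) (fun h => ha ((dvd_add_left h5).1 h))
  push_cast at h4
  rw [pow_succ' (p : ℚ) n] at h4
  exact h4

include hK hp hpN hnew in
/-- **the main theorem on symbols** -/
theorem not_constD (hD : D ≠ 0) : ∃ n₀, ∀ n ≥ n₀, ¬ ConstD p D K n := by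
  have hpp : Prime (p : ℤ) := Nat.prime_iff_prime_int.1 hp
  by_contra hcon
  push Not at hcon
  -- the power of `p` in `D`
  have hfin : FiniteMultiplicity (p : ℤ) D := by
    rw [Int.finiteMultiplicity_iff]
    refine ⟨?_, hD⟩
    rw [Int.natAbs_natCast]
    exact hp.one_lt.ne'
  obtain ⟨v, hv1, hv2⟩ : ∃ v, (p : ℤ) ^ v ∣ D ∧ ¬ (p : ℤ) ^ (v + 1) ∣ D := by
    refine ⟨multiplicity (p : ℤ) D, pow_multiplicity_dvd _ _, ?_⟩
    exact hfin.not_pow_dvd_of_multiplicity_lt (Nat.lt_succ_self _)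
  have hall : ∀ (m : ℕ), 1 ≤ m → ∀ a : ℤ, ¬ (p : ℤ) ∣ a →
      (p : ℤ) ^ (v + 1) ∣ K ((a : ℚ), (p : ℚ) ^ m) := by
    intro m hm
    obtain ⟨n, hn, hc⟩ := hcon m
    obtain ⟨j, rfl⟩ := Nat.exists_eq_add_of_le hn
    have h1 : ∀ a : ℤ, ¬ (p : ℤ) ∣ a → (p : ℤ) ^ (v + 1) ∣ K ((a : ℚ), (p : ℚ) ^ (m + j)) :=
      fun a ha => val_of_const hK hp hpN hnew hv1 (by omega) hc ha
    clear hc hn
    induction j with
    | zero => exact h1
    | succ j ih =>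
      exact ih fun a ha => val_down hp hnew (n := m + j) (by omega) (fun a' ha' => h1 a' ha') ha
  have hmult : IsMult p N' (fun z => ((K z : ℤ) : ZMod (p ^ (v + 1)))) ((α : ℤ) : ZMod (p ^ (v + 1))) := by
    refine ⟨?_, ?_, ?_, ?_, ?_, ?_, ?_⟩
    · intro t x y ht
      rw [hK.hom t x y ht]
    · intro x
      rw [hK.inf, Int.cast_zero]
    · intro a b c d hdet hc
      obtain ⟨w, hw⟩ := hK.inv a b c d hdet (by push_cast; exact hc)
      refine ⟨((D * w : ℤ) : ZMod _), fun x y hxy => ?_⟩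
      rw [hw x y hxy]
      push_cast
      rfl
    · intro a b c d hdet hc
      obtain ⟨w, hw⟩ := hnew.W a b c d hdet hc
      refine ⟨((w : ℤ) : ZMod _), fun x y hxy => ?_⟩
      rw [hw x y hxy]
      push_cast
      rfl
    · intro x y _
      rw [← Int.cast_mul, ← hnew.U]
      push_cast
      rfl
    · rcases hnew.sq with h | h <;> rw [h] <;> push_cast <;> ring
    · intro a n ha
      rw [ZMod.intCast_zmod_eq_zero_iff_dvd]
      push_cast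
      exact hall (n + 1) (by omega) a ha
  obtain ⟨a, b, c, d, hdet, hc, hval⟩ := hK.att
  have hnil : ((p : ℕ) : ZMod (p ^ (v + 1))) ^ (v + 1) = 0 := by
    rw [← Nat.cast_pow]
    exact ZMod.natCast_self _
  have h1 := all_zero hp hpN hmult hnil hdet (by push_cast at hc; exact hc)
  rw [hval, ZMod.intCast_zmod_eq_zero_iff_dvd] at h1
  push_cast at h1
  exact hv2 h1

end Pool.Agent.H503.MB
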