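import Pool.Agent.H503.MB.AL
import Pool.Agent.H503.MB.NC

/-!
# The relations at `p` for the integral symbol of `f`
-/

set_option autoImplicit false
set_option linter.unusedSectionVars false

open Complex UpperHalfPlane MatrixGroups CongruenceSubgroup Filter Topology ModularForm

namespace Pool.Agent.H503.MB

open Pool.Agent.H503.TA Pool.Agent.H503.MU

/-- the Atkin-Lehner relation -/
def ALAt {N : ℕ} (f : CuspForm (Gamma0 N : Subgroup (GL (Fin 2) ℝ)) 2) (p N' : ℕ) (α : ℤ) : Prop :=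
  ∀ a b c d : ℤ, (p : ℤ) * a * (p * d) - b * c = p → (p : ℤ) * N' ∣ c → ∀ z w : ℍ,
    (w : ℂ) * ((c : ℂ) * z + p * d) = p * a * z + b →
      (p : ℂ) * f w = -α * ((c : ℂ) * z + p * d) ^ 2 * f z

variable {N : ℕ} [NeZero N]
variable (f : CuspForm (Gamma0 N : Subgroup (GL (Fin 2) ℝ)) 2)
variable {s : ℂ} {Ω : ℂ} (hΩ0 : Ω ≠ 0) {D : ℤ} {K : ℚ × ℚ → ℤ}
  (hK : ∀ z, ((D : ℤ) : ℂ) * PhiC f s z = K z * Ω)

include hΩ0 hK in
lemma K_U {l : ℕ} (hl : 0 < l) {a : ℤ} (hH : UAt f l a) (x y : ℚ) :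
    ∑ i ∈ Finset.range l, K (x + i * y, l * y) = a * K (x, y) := by
  have h1 := PsiC_U f hl hH x y
  have h2 := congrArg (starRingEnd ℂ) h1
  rw [map_sum, map_mul, map_intCast] at h2
  have h3 : ∑ i ∈ Finset.range l, PhiC f s (x + i * y, l * y) = a * PhiC f s (x, y) := by
    unfold PhiC
    rw [Finset.sum_add_distrib, ← Finset.mul_sum]
    linear_combination h1 + s * h2
  have h4 : ((∑ i ∈ Finset.range l, K (x + i * y, l * y) : ℤ) : ℂ) * Ω =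
      ((a * K (x, y) : ℤ) : ℂ) * Ω := by
    push_cast
    rw [Finset.sum_mul, mul_assoc, ← hK, Finset.sum_congr rfl fun i _ => (hK _).symm,
      ← Finset.mul_sum]
    linear_combination ((D : ℤ) : ℂ) * h3
  exact_mod_cast mul_right_cancel₀ hΩ0 h4

include hΩ0 hK in
lemma K_W {p N' : ℕ} (hp : p.Prime) {α : ℤ} (hAL : ALAt f p N' α) (a b c d : ℤ)
    (hdet : (p : ℤ) * a * (p * d) - b * c = p) (hc : (p : ℤ) * N' ∣ c) : ∃ w : ℤ, ∀ x y : ℚ,
    (x, y) ≠ (0 : ℚ × ℚ) → K ((p * a : ℤ) * x + b * y, c * x + (p * d : ℤ) * y) =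
      -α * K (x, y) + w := by
  have hp0 : (0 : ℤ) < p := by exact_mod_cast hp.pos
  have hf : ∀ z w : ℍ, (w : ℂ) * (((c : ℤ) : ℂ) * z + ((p * d : ℤ) : ℂ)) =
      ((p * a : ℤ) : ℂ) * z + b → (((p : ℤ) : ℤ) : ℂ) * f w =
        -(α : ℂ) * (((c : ℤ) : ℂ) * z + ((p * d : ℤ) : ℂ)) ^ 2 * f z := by
    intro z w h
    push_cast at h ⊢
    exact hAL a b c d hdet hc z w h
  obtain ⟨c0, hc0⟩ := prim_M f hp0 hdet hf
  have hsym : ∀ x y : ℚ, (x, y) ≠ (0 : ℚ × ℚ) →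
      PsiC f (((p * a : ℤ) : ℚ) * x + b * y, c * x + ((p * d : ℤ) : ℚ) * y) =
        -(α : ℂ) * PsiC f (x, y) + c0 := fun x y hxy => PsiC_M f hp0 hdet hc0 hxy
  have hPhi : ∀ x y : ℚ, (x, y) ≠ (0 : ℚ × ℚ) →
      PhiC f s (((p * a : ℤ) : ℚ) * x + b * y, c * x + ((p * d : ℤ) : ℚ) * y) =
        -(α : ℂ) * PhiC f s (x, y) + (c0 + s * (starRingEnd ℂ) c0) := by
    intro x y hxy
    unfold PhiC
    rw [hsym x y hxy, map_add, map_mul, map_neg, map_intCast]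
    ring
  set w : ℤ := K (((p * a : ℤ) : ℚ) * 1 + b * 0, c * 1 + ((p * d : ℤ) : ℚ) * 0) with hw
  have h1 : (D : ℂ) * (c0 + s * (starRingEnd ℂ) c0) = w * Ω := by
    rw [hw, ← hK, hPhi 1 0 (by simp)]
    have h0 : PhiC f s (1, 0) = 0 := by
      unfold PhiC
      rw [PsiC_inf]
      simp
    rw [h0]
    ring
  refine ⟨w, fun x y hxy => ?_⟩
  have h2 : ((K (((p * a : ℤ) : ℚ) * x + b * y, c * x + ((p * d : ℤ) : ℚ) * y) : ℤ) : ℂ) * Ω =
      ((-α * K (x, y) + w : ℤ) : ℂ) * Ω := by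
    rw [← hK, hPhi x y hxy]
    push_cast
    linear_combination (-(α : ℂ)) * hK (x, y) + h1
  exact_mod_cast mul_right_cancel₀ hΩ0 h2

end Pool.Agent.H503.MB
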